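import Pool.Agent.H525.MV.Stm

set_option autoImplicit false

/-! # CLS: choice of a residue class modulo the small primes (subtask 2763 of helper525) -/

namespace Pool.Agent.H525.MV.XS

open Finset MvPolynomial
open Pool.Agent.H525.MV (red zc S_CLS)

variable {ι : Type}

theorem cast_eval (F : MvPolynomial ι ℤ) (z : ι → ℤ) (p : ℕ) :
    ((eval z F : ℤ) : ZMod p) = eval (fun i => ((z i : ℤ) : ZMod p)) (red F p) := by
  unfold red
  induction F using MvPolynomial.induction_on with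
  | C a => simp
  | add f g hf hg => simp [hf, hg]
  | mul_X f i hf => simp [hf]

theorem dvd_iff (F : MvPolynomial ι ℤ) (z : ι → ℤ) (p : ℕ) :
    (p : ℤ) ∣ eval z F ↔ eval (fun i => ((z i : ℤ) : ZMod p)) (red F p) = 0 := by
  rw [← cast_eval, ZMod.intCast_zmod_eq_zero_iff_dvd]

/-- Only the classes modulo `p` matter. -/
theorem dvd_congr (F : MvPolynomial ι ℤ) (z z' : ι → ℤ) (p : ℕ) (h : ∀ i, (p : ℤ) ∣ z i - z' i) :
    (p : ℤ) ∣ eval z F ↔ (p : ℤ) ∣ eval z' F := by
  rw [dvd_iff, dvd_iff]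
  have e : (fun i => ((z i : ℤ) : ZMod p)) = fun i => ((z' i : ℤ) : ZMod p) := by
    funext i
    have h1 := (ZMod.intCast_zmod_eq_zero_iff_dvd (z i - z' i) p).2 (h i)
    rw [Int.cast_sub, sub_eq_zero] at h1
    exact h1
  rw [e]

section one

variable [Fintype ι]

open scoped Classical in
/-- The number of the nonzeros modulo `p`. -/
theorem sum_ne (F : MvPolynomial ι ℤ) (p : ℕ) [NeZero p] :
    ∑ x : ι → ZMod p, (if eval x (red F p) = 0 then (0 : ℝ) else 1) =
      (p : ℝ) ^ Fintype.card ι - (zc F p : ℝ) := by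
  have h1 : (zc F p : ℝ) = ∑ x : ι → ZMod p, (if eval x (red F p) = 0 then (1 : ℝ) else 0) := by
    unfold zc
    rw [Nat.card_eq_fintype_card, Fintype.card_subtype, Finset.card_filter]
    push_cast
    rfl
  have h2 : ∑ x : ι → ZMod p, (1 : ℝ) = (p : ℝ) ^ Fintype.card ι := by
    rw [Finset.sum_const, Finset.card_univ, nsmul_eq_mul, mul_one, Fintype.card_fun, ZMod.card]
    push_cast
    rfl
  rw [h1, ← h2, ← Finset.sum_sub_distrib]
  refine Finset.sum_congr rfl fun x _ => ?_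
  split_ifs <;> norm_num

theorem zc_le (F : MvPolynomial ι ℤ) (p : ℕ) [NeZero p] :
    (zc F p : ℝ) ≤ (p : ℝ) ^ Fintype.card ι := by
  classical
  have h := sum_ne F p
  have h0 : 0 ≤ ∑ x : ι → ZMod p, (if eval x (red F p) = 0 then (0 : ℝ) else 1) :=
    Finset.sum_nonneg fun x _ => by split_ifs <;> norm_num
  linarith

open scoped Classical in
/-- The average over the classes modulo `p`. -/
theorem one_prime (F : MvPolynomial ι ℤ) (H₀ : Finset (ι → ℤ)) (p : ℕ) [NeZero p] :
    ∃ b : ι → ZMod p, ∑ h ∈ H₀, (if eval (fun i => b i + ((h i : ℤ) : ZMod p)) (red F p) = 0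
      then (0 : ℝ) else 1) ≤ (H₀.card : ℝ) * (1 - (zc F p : ℝ) / (p : ℝ) ^ Fintype.card ι) := by
  have hp : (0 : ℝ) < (p : ℝ) ^ Fintype.card ι := by
    have : 0 < p := Nat.pos_of_ne_zero (NeZero.ne p)
    positivity
  have h1 : ∑ b : ι → ZMod p, ∑ h ∈ H₀,
      (if eval (fun i => b i + ((h i : ℤ) : ZMod p)) (red F p) = 0 then (0 : ℝ) else 1) ≤
      ∑ _b : ι → ZMod p, (H₀.card : ℝ) * (1 - (zc F p : ℝ) / (p : ℝ) ^ Fintype.card ι) := by
    rw [Finset.sum_comm]
    have h2 : ∀ h ∈ H₀, ∑ b : ι → ZMod p,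
        (if eval (fun i => b i + ((h i : ℤ) : ZMod p)) (red F p) = 0 then (0 : ℝ) else 1) =
        (p : ℝ) ^ Fintype.card ι - (zc F p : ℝ) := by
      intro h _
      rw [← sum_ne F p]
      exact Equiv.sum_comp (Equiv.addRight (fun i => ((h i : ℤ) : ZMod p)))
        (fun x : ι → ZMod p => if eval x (red F p) = 0 then (0 : ℝ) else 1)
    rw [Finset.sum_congr rfl h2, Finset.sum_const, Finset.sum_const, nsmul_eq_mul, nsmul_eq_mul,
      Finset.card_univ, Fintype.card_fun, ZMod.card]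
    push_cast
    refine le_of_eq ?_
    field_simp
  obtain ⟨b, _, hb⟩ := Finset.exists_le_of_sum_le (Finset.univ_nonempty) h1
  exact ⟨b, hb⟩

open scoped Classical in
/-- The induction. -/
theorem cls_aux (F : MvPolynomial ι ℤ) (P : Finset ℕ) : ∀ (M : ℤ) (a₁ : ι → ℤ)
    (H₀ : Finset (ι → ℤ)), (∀ p ∈ P, p.Prime ∧ ¬ (p : ℤ) ∣ M) →
    ∃ a₀ : ι → ℤ, (∀ i, M ∣ a₀ i - a₁ i) ∧
    ((H₀.filter (fun h => ∀ p ∈ P, ¬ (p : ℤ) ∣ eval (fun i => a₀ i + h i) F)).card : ℝ) ≤
      (H₀.card : ℝ) * ∏ p ∈ P, (1 - (zc F p : ℝ) / (p : ℝ) ^ Fintype.card ι) := by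
  induction P using Finset.induction_on with
  | empty =>
    intro M a₁ H₀ _
    refine ⟨a₁, fun i => by simp, ?_⟩
    rw [Finset.prod_empty, mul_one]
    exact_mod_cast Finset.card_filter_le _ _
  | insert p P hpP ih =>
    intro M a₁ H₀ hP
    have hp : p.Prime := (hP p (Finset.mem_insert_self p P)).1
    have hpM : ¬ (p : ℤ) ∣ M := (hP p (Finset.mem_insert_self p P)).2
    have : Fact p.Prime := ⟨hp⟩
    obtain ⟨b, hb⟩ := one_prime F H₀ p
    have hM0 : ((M : ℤ) : ZMod p) ≠ 0 := by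
      intro h
      exact hpM ((ZMod.intCast_zmod_eq_zero_iff_dvd M p).1 h)
    -- the common class
    set a₂ : ι → ℤ := fun i => a₁ i +
      M * (((b i - ((a₁ i : ℤ) : ZMod p)) / ((M : ℤ) : ZMod p)).val : ℤ) with ha₂
    have h1 : ∀ i, M ∣ a₂ i - a₁ i := by
      intro i
      rw [ha₂]
      simp only
      rw [add_sub_cancel_left]
      exact dvd_mul_right _ _
    have h2 : ∀ i, ((a₂ i : ℤ) : ZMod p) = b i := by
      intro i
      rw [ha₂]
      simp only
      push_cast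
      rw [ZMod.natCast_val, ZMod.cast_id, mul_div_cancel₀ _ hM0]
      ring
    set H₁ : Finset (ι → ℤ) := H₀.filter (fun h => ¬ (p : ℤ) ∣ eval (fun i => a₂ i + h i) F)
      with hH₁
    have hH₁c : (H₁.card : ℝ) ≤ (H₀.card : ℝ) *
        (1 - (zc F p : ℝ) / (p : ℝ) ^ Fintype.card ι) := by
      refine le_trans (le_of_eq ?_) hb
      rw [hH₁, Finset.card_filter]
      push_cast
      refine Finset.sum_congr rfl fun h _ => ?_
      have e : ((p : ℤ) ∣ eval (fun i => a₂ i + h i) F) ↔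
          eval (fun i => b i + ((h i : ℤ) : ZMod p)) (red F p) = 0 := by
        rw [dvd_iff]
        have e1 : (fun i => ((a₂ i + h i : ℤ) : ZMod p)) =
            fun i => b i + ((h i : ℤ) : ZMod p) := by
          funext i
          rw [Int.cast_add, h2]
        rw [e1]
      by_cases h' : (p : ℤ) ∣ eval (fun i => a₂ i + h i) F
      · rw [if_pos (e.1 h'), if_neg (not_not.2 h')]
      · rw [if_neg (fun h'' => h' (e.2 h'')), if_pos h']
    obtain ⟨a₀, h3, h4⟩ := ih (M * p) a₂ H₁ (by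
      intro q hq
      have hq' := hP q (Finset.mem_insert_of_mem hq)
      refine ⟨hq'.1, ?_⟩
      intro h
      have hqp : _root_.Prime (q : ℤ) := Nat.prime_iff_prime_int.1 hq'.1
      rcases hqp.dvd_or_dvd h with h5 | h5
      · exact hq'.2 h5
      · have h6 : q ∣ p := by exact_mod_cast h5
        rw [Nat.prime_dvd_prime_iff_eq hq'.1 hp] at h6
        exact hpP (h6 ▸ hq))
    refine ⟨a₀, ?_, ?_⟩
    · intro i
      have h5 := dvd_add ((dvd_mul_right M (p : ℤ)).trans (h3 i)) (h1 i)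
      have e : a₀ i - a₂ i + (a₂ i - a₁ i) = a₀ i - a₁ i := by ring
      rwa [e] at h5
    · rw [Finset.prod_insert hpP]
      have hnn : 0 ≤ ∏ q ∈ P, (1 - (zc F q : ℝ) / (q : ℝ) ^ Fintype.card ι) := by
        refine Finset.prod_nonneg fun q hq => ?_
        have hq' := (hP q (Finset.mem_insert_of_mem hq)).1
        have : NeZero q := ⟨hq'.ne_zero⟩
        have h5 := zc_le F q
        have h6 : (0 : ℝ) < (q : ℝ) ^ Fintype.card ι := by
          have := hq'.pos
          positivity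
        rw [sub_nonneg, div_le_one h6]
        exact h5
      have h5 : H₀.filter (fun h => ∀ q ∈ insert p P, ¬ (q : ℤ) ∣ eval (fun i => a₀ i + h i) F) ⊆
          H₁.filter (fun h => ∀ q ∈ P, ¬ (q : ℤ) ∣ eval (fun i => a₀ i + h i) F) := by
        intro h hh
        rw [Finset.mem_filter] at hh ⊢
        refine ⟨?_, fun q hq => hh.2 q (Finset.mem_insert_of_mem hq)⟩
        rw [hH₁, Finset.mem_filter]
        refine ⟨hh.1, ?_⟩
        have h6 := hh.2 p (Finset.mem_insert_self p P)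
        rw [dvd_congr F (fun i => a₀ i + h i) (fun i => a₂ i + h i) p] at h6
        · exact h6
        · intro i
          have h7 := (dvd_mul_left (p : ℤ) M).trans (h3 i)
          have e : a₀ i + h i - (a₂ i + h i) = a₀ i - a₂ i := by ring
          rwa [e]
      have h6 : ((H₀.filter (fun h => ∀ q ∈ insert p P,
          ¬ (q : ℤ) ∣ eval (fun i => a₀ i + h i) F)).card : ℝ) ≤
          ((H₁.filter (fun h => ∀ q ∈ P, ¬ (q : ℤ) ∣ eval (fun i => a₀ i + h i) F)).card : ℝ) := by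
        exact_mod_cast Finset.card_le_card h5
      refine h6.trans (h4.trans ?_)
      rw [← mul_assoc]
      exact mul_le_mul_of_nonneg_right hH₁c hnn

end one

theorem t_CLS : S_CLS := by
  intro ι _ F H₀ P hP
  obtain ⟨a₀, _, h⟩ := cls_aux F P 1 0 H₀ (fun p hp => ⟨hP p hp, by
    intro h
    have h1 : p ∣ 1 := by exact_mod_cast h
    exact (hP p hp).one_lt.ne' (Nat.dvd_one.1 h1)⟩)
  exact ⟨a₀, h⟩

end Pool.Agent.H525.MV.XS
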