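import Pool.Graph.R_seed8.R410.LW.Main
import Pool.Agent.H525.NF.Mert
import Pool.Agent.H525.NF.Lat

set_option autoImplicit false

/-! # Statements used for the values of polynomials in several variables (helper525)

`S_X` are propositions, each is proved in a separate file (`t_X`).
`n = Fintype.card ι` is the number of the variables. -/

namespace Pool.Agent.H525.MV

open Finset NumberField MvPolynomial
open Pool.Agent.H525.NF (Box)
open Pool.Agent.H474R2.PG (PR)

open scoped Classical

/-- the polynomial `F` modulo `p` -/
noncomputable def red {ι : Type} (F : MvPolynomial ι ℤ) (p : ℕ) : MvPolynomial ι (ZMod p) :=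
  MvPolynomial.map (Int.castRingHom (ZMod p)) F

/-- the number of the zeros of `F` modulo `p` -/
noncomputable def zc {ι : Type} (F : MvPolynomial ι ℤ) (p : ℕ) : ℕ :=
  Nat.card {x : ι → ZMod p // eval x (red F p) = 0}

/-- the polynomial `F(X + v)` -/
noncomputable def tr {ι : Type} (F : MvPolynomial ι ℤ) (v : ι → ℤ) : MvPolynomial ι ℤ :=
  MvPolynomial.aeval (fun i => X i + C (v i)) F

/-- TR. Translations.

Proof. The first four claims are easy (`MvPolynomial.aeval`, `eval`, `map` are ring homomorphisms; the fourth claim: the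
bijection `x ↦ x + v` of the zeros). The total degree of `tr F v` is at most that of `F`, and `F = tr (tr F v) (-v)`.
Sixth claim: if `F ∣ tr F v` then `tr F v = q F`, and by the degrees `q` is a constant (`totalDegree_mul_of_isDomain`);
the homogeneous parts of degree `totalDegree F` of `F` and of `tr F v` are equal (by linearity, for monomials:
`∏ (X i + v i) ^ s i - ∏ X i ^ s i` has a smaller degree) and not zero, so that `q = 1`. Last claim:
the coefficients of `tr F v` are sums of the coefficients of `F` times products of at most `totalDegree F` of the `v i`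
times binomial coefficients; or, simpler, the sum of the absolute values of the coefficients is submultiplicative, it
is at most `1 + H ≤ 2 H` for `X i + C (v i)`. -/
def S_TR : Prop := ∀ (ι : Type) [Fintype ι] (F : MvPolynomial ι ℤ),
  (∀ v x : ι → ℤ, eval x (tr F v) = eval (fun i => x i + v i) F) ∧
  (∀ (v : ι → ℤ) (p : ℕ) (x : ι → ZMod p), eval x (red (tr F v) p) =
    eval (fun i => x i + ((v i : ℤ) : ZMod p)) (red F p)) ∧
  (∀ v w : ι → ℤ, tr (tr F v) w = tr F (fun i => v i + w i)) ∧
  (∀ (v : ι → ℤ) (p : ℕ), p.Prime → zc (tr F v) p = zc F p) ∧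
  (∀ v : ι → ℤ, (tr F v).totalDegree = F.totalDegree) ∧
  (∀ v : ι → ℤ, 0 < F.totalDegree → tr F v ≠ F → ¬ F ∣ tr F v) ∧
  ∃ C : ℝ, 1 ≤ C ∧ ∀ (v : ι → ℤ) (H : ℝ), 1 ≤ H → (∀ i, |(v i : ℝ)| ≤ H) →
    ∀ s, |((MvPolynomial.coeff s (tr F v) : ℤ) : ℝ)| ≤ C * H ^ F.totalDegree

/-- COD. The common zeros of two polynomials modulo `p`: codimension two, uniformly.

Proof. Let `g = totalDegree F`, `R = MvPolynomial ι ℤ` and `T` a further variable (`Polynomial R`). There is `u : ι → ℤ`
at which the homogeneous part of degree `g` of `F` does not vanish (`MvPolynomial.funext` or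
`exists_eval_ne_zero`), with the value `c ≠ 0`. The polynomial `F' = F(X + T u)` in `R[T]` has degree `g` in `T` and
the leading coefficient `c` (a constant), `G' = G(X + T u)` has degree at most `D` in `T`. The substitution
`X ↦ X + T u`, `T ↦ T` is an automorphism of `R[T]` (the inverse is `X ↦ X - T u`), so that `F'` is prime in `R[T]` as
`F` is prime in `R` (`UniqueFactorizationMonoid`, `Polynomial.prime_C_iff`), and `F'` does not divide `G'`, as
the automorphism maps `C F` to `F'` and `C G` to `G'`. So `F'` and `G'` are coprime over the field of fractions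
of `R` (Gauss: `Polynomial.IsPrimitive.irreducible_iff_irreducible_map_fraction_map`,
`IsPrimitive.dvd_iff_fraction_map_dvd_fraction_map`), and their resultant `ρ = resultant F' G' g D` in `R` is not zero
(`Polynomial.resultant_ne_zero`, `resultant_map_map`); see `ncol_res` and `no_collision` in
`Pool/Graph/R_seed8/H474R2/PG/NoColl.lean` for the same argument in one variable (formal degrees: as `F'` has the
leading coefficient `c ≠ 0`, the resultant with the formal degree `D` of `G'` is a power of `±c` times that with the
true degree). `ρ` is a combination of `F'` and `G'` (`exists_mul_add_mul_eq_C_resultant`). Its total degree is at most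
some `m'` depending on `g, D` only, and the absolute values of its coefficients are at most `C H ^ g` (the resultant is a
determinant of order `g + D`, with `g` rows with coefficients of `G'`; the sum of the absolute values of the
coefficients is submultiplicative; the number of the monomials of degree `≤ D` is a constant). So if
`p > C H ^ g` then `ρ` is not zero modulo `p`. Let `p > |c|`, `p > |u i|` for all `i`. If `x` is a common zero modulo `p`,
then `ρ(x) = 0` modulo `p` (put `T = 0`; more generally `ρ(x - t u) = 0` for all `t`, put `T = t`), and the line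
`x + t u`, `t` in `ZMod p`, has at most `g` zeros of `F`, as `c ≠ 0`. The zeros of `ρ` are at most `m' p ^ (n - 1)`
(Schwartz–Zippel, `MvPolynomial.schwartz_zippel_totalDegree`, after numbering `ι`), and if there is a common
zero on a line in the direction `u`, then all `p` points of the line are zeros of `ρ`. So the number `N` of the common
zeros satisfies `p N ≤ g m' p ^ (n - 1)` (count the pairs of a common zero and a point on its line in the direction
`u`; each point occurs at most `g` times). -/
def S_COD : Prop := ∀ (ι : Type) [Fintype ι] (F : MvPolynomial ι ℤ), Irreducible F → 0 < F.totalDegree →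
  ∀ D : ℕ, ∃ (C : ℝ) (m : ℕ), 1 ≤ C ∧ ∀ G : MvPolynomial ι ℤ, G.totalDegree ≤ D → ¬ F ∣ G →
    ∀ H : ℝ, 1 ≤ H → (∀ s, |((MvPolynomial.coeff s G : ℤ) : ℝ)| ≤ H) → ∀ p : ℕ, p.Prime → C * H ^ m < p →
    (p : ℝ) * (Nat.card {x : ι → ZMod p // eval x (red F p) = 0 ∧ eval x (red G p) = 0} : ℝ) ≤
      C * (p : ℝ) ^ (Fintype.card ι - 1)

/-- LW. The theorem of Lang and Weil in the form of Landau for hypersurfaces.

Proof. Let `A = MvPolynomial ι ℤ ⧸ (F)`, a domain. Some variable `X i₀` occurs in `F`; let `ι' = {j // j ≠ i₀}`. The map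
`MvPolynomial ι' ℤ → A` is injective (a nonzero multiple of `F` contains `X i₀`: degree in `X i₀`) and the field of
fractions of `A` is algebraic over it. So the library theorem
`Pool.Agent.N455.HT.landau_model` (`team-store fetch /workdir/pool
Pool/Graph/R_pool_sql_team_seeded_63374d34/N455/HT/Fld.lean`, or `Pool.Agent.R410.LW.landau` directly, imported here)
gives a number field `L` with `Landau A (n - 1) L`: there is `s ≠ 0` in `A`, and with `t = s` the number of the
homomorphisms `φ` from `A` to `ZMod p` with `φ t ≠ 0` is `ν(p) p ^ (n - 1) + O(p ^ (n - 3/2))`,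
`ν(p) = Nat.card (𝓞 L →+* ZMod p)`, for the `p` not dividing some `N ≠ 0`. These homomorphisms are the zeros `x` of `F` modulo
`p` with `t'(x) ≠ 0`, where `t'` in `MvPolynomial ι ℤ` represents `t`, and `F` does not divide `t'`; the zeros with
`t'(x) = 0` are at most `C p ^ (n - 2)` for large `p` by `S_COD`. Finitely many `p` are put into the constant. -/
def S_LW : Prop := ∀ (ι : Type) [Fintype ι] (F : MvPolynomial ι ℤ), Irreducible F → 0 < F.totalDegree →
  ∃ (L : Type) (_ : Field L) (_ : NumberField L) (C : ℝ), 0 ≤ C ∧ ∀ p : ℕ, p.Prime →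
    |(zc F p : ℝ) - Nat.card (𝓞 L →+* ZMod p) * (p : ℝ) ^ (Fintype.card ι - 1)| * Real.sqrt p ≤
      C * (p : ℝ) ^ (Fintype.card ι - 1)

/-- MER. Mertens' theorem for the zeros of `F`.

Proof. `S_LW` divided by `p ^ n` (`n ≥ 1` as `F` is not constant): `|zc F p / p ^ n - ν(p) / p| ≤ C p ^ (-3/2)`, a
convergent sum; and `∑_{p ≤ w} ν(p) / p = log log w + O(1)` by `Pool.Agent.H474R2.PG.homs_lower` and
`Pool.Agent.H525.NF.homs_upper` (for `3 ≤ w ≤ w₀` everything is bounded). -/
def S_MER : Prop := ∀ (ι : Type) [Fintype ι] (F : MvPolynomial ι ℤ), Irreducible F → 0 < F.totalDegree →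
  ∃ C : ℝ, 0 ≤ C ∧ ∀ w : ℝ, 3 ≤ w →
    |∑ p ∈ PR w, (zc F p : ℝ) / (p : ℝ) ^ Fintype.card ι - Real.log (Real.log w)| ≤ C

/-- SZ. The lemma of Schwartz and Zippel.

Proof. `MvPolynomial.schwartz_zippel_totalDegree`, after numbering `ι` (`MvPolynomial.rename` with an equivalence `ι ≃ Fin n`).
First claim: `F` modulo `p` is not zero, since otherwise `F = p * G` where `G` is a unit, so that `F` is a constant; its
total degree is at most that of `F`. Second claim: translate the box to `{0, …, W - 1} ^ n`
(`aeval (fun i => X i + C (a i))`, the zero polynomial only for `F = 0`). If `n = 0` both sides are `0`. -/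
def S_SZ : Prop := ∀ (ι : Type) [Fintype ι] (F : MvPolynomial ι ℤ),
  (Irreducible F → 0 < F.totalDegree → ∀ p : ℕ, p.Prime →
    zc F p ≤ F.totalDegree * p ^ (Fintype.card ι - 1)) ∧
  (F ≠ 0 → ∀ (a : ι → ℤ) (W : ℕ), ((Box a W).filter (fun x => eval x F = 0)).card ≤
    F.totalDegree * W ^ (Fintype.card ι - 1))

/-- CLS. The choice of a residue class modulo the small primes.

Proof. Induction on `P`: given `H₀`, for one prime `p` the average over the classes `b` in `(ι → ZMod p)` of the number of
the `h` in `H₀` with `F(b + h) ≠ 0` modulo `p` is `|H₀| (1 - zc F p / p ^ n)`; take a class for which the number is at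
most the average, and apply the induction hypothesis (for the other primes) to the set of the remaining `h`.
At the end combine the classes by the Chinese remainder theorem (`Nat.chineseRemainderOfFinset` or
`Ideal.exists_forall_sub_mem_ideal`, or prove the statement with `a₀` prescribed modulo the primes used so far:
for `p ∉ P` and `M = ∏ P` prime to `p`, each class modulo `p` contains a multiple of `M` plus the old `a₀`). -/
def S_CLS : Prop := ∀ (ι : Type) [Fintype ι] (F : MvPolynomial ι ℤ) (H₀ : Finset (ι → ℤ)) (P : Finset ℕ),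
  (∀ p ∈ P, p.Prime) → ∃ a₀ : ι → ℤ,
    ((H₀.filter (fun h => ∀ p ∈ P, ¬ (p : ℤ) ∣ eval (fun i => a₀ i + h i) F)).card : ℝ) ≤
      (H₀.card : ℝ) * ∏ p ∈ P, (1 - (zc F p : ℝ) / (p : ℝ) ^ Fintype.card ι)

/-- CNT. Counting in residue classes.

Proof. Let `Q = W * ∏ p`. By the Chinese remainder theorem the conditions say that `a` modulo `Q` is in a set of
`∏ (B p).card` classes in `(ℤ/Q) ^ n`. For one class `r` the points of the box in the class are a product set, the `i`th
factor is the set of the integers in an interval of length `T` in a class modulo `Q`, with `T / Q + θ` elements,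
`|θ| ≤ 1` (`Int.Ico_filter_modEq_card` or similar), and `|∏ (t + θ i) - t ^ n| ≤ n (t + 1) ^ (n - 1)`. -/
def S_CNT : Prop := ∀ (ι : Type) [Fintype ι] (W : ℕ) (a₀ : ι → ℤ) (P : Finset ℕ)
  (B : (p : ℕ) → Finset (ι → ZMod p)), 1 ≤ W → (∀ p ∈ P, p.Prime ∧ ¬ p ∣ W) →
  ∀ (M : ι → ℤ) (T : ℕ),
    |(((Box M T).filter (fun a => (∀ i, (W : ℤ) ∣ a i - a₀ i) ∧
        ∀ p ∈ P, (fun i => ((a i : ℤ) : ZMod p)) ∈ B p)).card : ℝ) -
      ((T : ℝ) / W) ^ Fintype.card ι * ∏ p ∈ P, ((B p).card : ℝ) / (p : ℝ) ^ Fintype.card ι| ≤
      Fintype.card ι * (∏ p ∈ P, ((B p).card : ℝ)) *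
        ((T : ℝ) / (W * ∏ p ∈ P, (p : ℝ)) + 1) ^ (Fintype.card ι - 1)

/-- FAC. A nonconstant polynomial has a nonconstant irreducible factor.

Proof. `MvPolynomial ι ℤ` is a unique factorisation domain; the total degree of a product is the sum of the total
degrees (`totalDegree_mul_of_isDomain`), so some factor of a factorisation of `F` has a positive total degree. -/
def S_FAC : Prop := ∀ (ι : Type) [Fintype ι] (F : MvPolynomial ι ℤ), 0 < F.totalDegree →
  ∃ F₁ G : MvPolynomial ι ℤ, F = F₁ * G ∧ Irreducible F₁ ∧ 0 < F₁.totalDegree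

end Pool.Agent.H525.MV
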