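import Mathlib

/-! Subtask 2759 (for helper525): sums of the absolute values of the coefficients, determinants. -/

set_option autoImplicit false

namespace Pool.Agent.H525.MV.XC

open Finset MvPolynomial

variable {ι : Type}

/-- the sum of the absolute values of the coefficients -/
noncomputable def n1 (P : MvPolynomial ι ℤ) : ℝ := ∑ s ∈ P.support, |((coeff s P : ℤ) : ℝ)|

lemma n1_eq {P : MvPolynomial ι ℤ} {S : Finset (ι →₀ ℕ)} (h : P.support ⊆ S) :
    n1 P = ∑ s ∈ S, |((coeff s P : ℤ) : ℝ)| := by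
  unfold n1
  apply Finset.sum_subset h
  intro s _ hs
  rw [notMem_support_iff.1 hs]
  simp

lemma n1_nonneg (P : MvPolynomial ι ℤ) : 0 ≤ n1 P := Finset.sum_nonneg fun _ _ => abs_nonneg _

lemma n1_zero : n1 (0 : MvPolynomial ι ℤ) = 0 := by simp [n1]

lemma coeff_le_n1 (P : MvPolynomial ι ℤ) (s : ι →₀ ℕ) : |((coeff s P : ℤ) : ℝ)| ≤ n1 P := by
  by_cases h : s ∈ P.support
  · exact Finset.single_le_sum (f := fun s => |((coeff s P : ℤ) : ℝ)|) (fun _ _ => abs_nonneg _) h
  · rw [notMem_support_iff.1 h]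
    simpa using n1_nonneg P

lemma n1_add (P Q : MvPolynomial ι ℤ) : n1 (P + Q) ≤ n1 P + n1 Q := by
  classical
  rw [n1_eq (P := P + Q) (S := P.support ∪ Q.support) support_add,
    n1_eq (P := P) (S := P.support ∪ Q.support) subset_union_left,
    n1_eq (P := Q) (S := P.support ∪ Q.support) subset_union_right, ← Finset.sum_add_distrib]
  refine Finset.sum_le_sum fun s _ => ?_
  rw [coeff_add]
  push_cast
  exact abs_add_le _ _

lemma n1_neg (P : MvPolynomial ι ℤ) : n1 (-P) = n1 P := by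
  rw [n1_eq (P := -P) (S := P.support) (by rw [support_neg])]
  unfold n1
  refine Finset.sum_congr rfl fun s _ => ?_
  rw [coeff_neg]
  push_cast
  rw [abs_neg]

lemma n1_sum {κ : Type*} (S : Finset κ) (f : κ → MvPolynomial ι ℤ) :
    n1 (∑ i ∈ S, f i) ≤ ∑ i ∈ S, n1 (f i) := by
  classical
  induction S using Finset.induction_on with
  | empty => simp [n1_zero]
  | insert a S ha ih =>
    rw [Finset.sum_insert ha, Finset.sum_insert ha]
    exact (n1_add _ _).trans (by linarith)

lemma n1_monomial (s : ι →₀ ℕ) (a : ℤ) : n1 (monomial s a) ≤ |(a : ℝ)| := by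
  classical
  rw [n1_eq (S := {s}) support_monomial_subset, Finset.sum_singleton, coeff_monomial, if_pos rfl]

lemma n1_C_mul (a : ℤ) (P : MvPolynomial ι ℤ) : n1 (C a * P) ≤ |(a : ℝ)| * n1 P := by
  rw [n1_eq (P := C a * P) (S := P.support)]
  · unfold n1
    rw [Finset.mul_sum]
    refine Finset.sum_le_sum fun s _ => ?_
    rw [coeff_C_mul]
    push_cast
    rw [abs_mul]
  · intro s hs
    rw [mem_support_iff, coeff_C_mul] at hs
    rw [mem_support_iff]
    exact right_ne_zero_of_mul hs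

lemma n1_mul (P Q : MvPolynomial ι ℤ) : n1 (P * Q) ≤ n1 P * n1 Q := by
  classical
  have h : P * Q = ∑ s ∈ P.support, ∑ t ∈ Q.support,
      monomial (s + t) (coeff s P * coeff t Q) := by
    conv_lhs => rw [P.as_sum, Q.as_sum]
    rw [Finset.sum_mul_sum]
    simp only [monomial_mul]
  rw [h]
  refine (n1_sum _ _).trans ?_
  unfold n1
  rw [Finset.sum_mul_sum]
  refine Finset.sum_le_sum fun s _ => ?_
  refine (n1_sum _ _).trans (Finset.sum_le_sum fun t _ => ?_)
  refine (n1_monomial _ _).trans (le_of_eq ?_)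
  push_cast
  rw [abs_mul]

lemma n1_one : n1 (1 : MvPolynomial ι ℤ) ≤ 1 := by
  have := n1_monomial (ι := ι) 0 1
  simpa using this

lemma n1_prod {κ : Type*} (S : Finset κ) (f : κ → MvPolynomial ι ℤ) :
    n1 (∏ i ∈ S, f i) ≤ ∏ i ∈ S, n1 (f i) := by
  classical
  induction S using Finset.induction_on with
  | empty => simpa using n1_one
  | insert a S ha ih =>
    rw [Finset.prod_insert ha, Finset.prod_insert ha]
    exact (n1_mul _ _).trans (mul_le_mul_of_nonneg_left ih (n1_nonneg _))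

/-- determinants -/
lemma n1_det {N : ℕ} (M : Matrix (Fin N) (Fin N) (MvPolynomial ι ℤ)) {A : ℝ}
    (hA : ∀ i j, n1 (M i j) ≤ A) : n1 M.det ≤ (N.factorial : ℝ) * A ^ N := by
  classical
  rw [Matrix.det_apply]
  refine (n1_sum _ _).trans ?_
  have h : ∀ σ : Equiv.Perm (Fin N), n1 (Equiv.Perm.sign σ • ∏ i, M (σ i) i) ≤ A ^ N := by
    intro σ
    have h1 : n1 (∏ i, M (σ i) i) ≤ A ^ N := by
      refine (n1_prod _ _).trans ?_
      calc ∏ i, n1 (M (σ i) i) ≤ ∏ _i : Fin N, A :=
            Finset.prod_le_prod (fun _ _ => n1_nonneg _) fun i _ => hA _ _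
        _ = A ^ N := by simp
    rcases Int.units_eq_one_or (Equiv.Perm.sign σ) with h2 | h2
    · rw [h2, one_smul]; exact h1
    · rw [h2, Units.neg_smul, one_smul, n1_neg]; exact h1
  calc ∑ σ : Equiv.Perm (Fin N), n1 (Equiv.Perm.sign σ • ∏ i, M (σ i) i)
      ≤ ∑ _σ : Equiv.Perm (Fin N), A ^ N := Finset.sum_le_sum fun σ _ => h σ
    _ = _ := by simp [Fintype.card_perm]

lemma totalDegree_det {N : ℕ} (M : Matrix (Fin N) (Fin N) (MvPolynomial ι ℤ)) {E : ℕ}
    (hE : ∀ i j, (M i j).totalDegree ≤ E) : M.det.totalDegree ≤ N * E := by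
  classical
  rw [Matrix.det_apply]
  refine (totalDegree_finsetSum _ _).trans (Finset.sup_le fun σ _ => ?_)
  have h1 : (∏ i, M (σ i) i).totalDegree ≤ N * E := by
    refine (totalDegree_finsetProd _ _).trans ?_
    calc ∑ i, (M (σ i) i).totalDegree ≤ ∑ _i : Fin N, E := Finset.sum_le_sum fun i _ => hE _ _
      _ = N * E := by simp
  rcases Int.units_eq_one_or (Equiv.Perm.sign σ) with h2 | h2
  · rw [h2, one_smul]; exact h1
  · rw [h2, Units.neg_smul, one_smul, totalDegree_neg]; exact h1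

/-- the entries of the Sylvester matrix -/
lemma sylvester_entry {R : Type*} [CommRing R] (f g : Polynomial R) (m n : ℕ) (Q : R → Prop)
    (h0 : Q 0) (hf : ∀ i, Q (f.coeff i)) (hg : ∀ i, Q (g.coeff i)) (i j : Fin (m + n)) :
    Q (Polynomial.sylvester f g m n i j) := by
  unfold Polynomial.sylvester
  rw [Matrix.of_apply]
  refine Fin.addCases (fun j₁ => ?_) (fun j₁ => ?_) j
  · rw [Fin.addCases_left]
    split_ifs
    · exact hg _
    · exact h0
  · rw [Fin.addCases_right]
    split_ifs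
    · exact hf _
    · exact h0

end Pool.Agent.H525.MV.XC
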