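import Pool.Agent.H525.MV.CodA

/-! Subtask 2759 (for helper525): the polynomial `F(X + T u)` and the resultant. -/

set_option autoImplicit false

namespace Pool.Agent.H525.MV.XC

open Finset MvPolynomial

variable {ι : Type}

/-- the polynomial `F(X + T u)` -/
noncomputable def psi (u : ι → ℤ) : MvPolynomial ι ℤ →+* Polynomial (MvPolynomial ι ℤ) :=
  eval₂Hom (Polynomial.C.comp C) fun i =>
    Polynomial.C (X i) + Polynomial.C (C (u i)) * Polynomial.X

lemma psi_C (u : ι → ℤ) (a : ℤ) : psi u (C a) = Polynomial.C (C a) := by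
  simp [psi]

lemma psi_X (u : ι → ℤ) (i : ι) :
    psi u (X i) = Polynomial.C (X i) + Polynomial.C (C (u i)) * Polynomial.X := by
  simp [psi]

/-- evaluation at `X = x`, `T = t` -/
noncomputable def ev {A : Type*} [CommRing A] (x : ι → A) (t : A) :
    Polynomial (MvPolynomial ι ℤ) →+* A :=
  Polynomial.eval₂RingHom (eval₂Hom (Int.castRingHom A) x) t

lemma ev_psi {A : Type*} [CommRing A] (x : ι → A) (t : A) (u : ι → ℤ) (F : MvPolynomial ι ℤ) :
    ev x t (psi u F) = eval₂Hom (Int.castRingHom A) (fun i => x i + (u i : A) * t) F := by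
  have h : (ev x t).comp (psi u) = eval₂Hom (Int.castRingHom A) (fun i => x i + (u i : A) * t) := by
    apply ringHom_ext
    · intro r
      simp [ev, psi]
    · intro i
      simp only [RingHom.comp_apply, psi, ev, coe_eval₂Hom, eval₂_X, Polynomial.coe_eval₂RingHom,
        Polynomial.eval₂_add, Polynomial.eval₂_mul, Polynomial.eval₂_C, Polynomial.eval₂_X,
        eval₂_C]
      rfl
  exact congrFun (congrArg DFunLike.coe h) F

/-- the automorphism `X ↦ X + T u`, `T ↦ T` -/
noncomputable def Psi (u : ι → ℤ) :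
    Polynomial (MvPolynomial ι ℤ) →+* Polynomial (MvPolynomial ι ℤ) :=
  Polynomial.eval₂RingHom (psi u) Polynomial.X

lemma Psi_C (u : ι → ℤ) (F : MvPolynomial ι ℤ) : Psi u (Polynomial.C F) = psi u F := by
  simp [Psi]

lemma Psi_comp (u v : ι → ℤ) (h : ∀ i, u i + v i = 0) :
    (Psi u).comp (Psi v) = RingHom.id _ := by
  apply Polynomial.ringHom_ext'
  · apply ringHom_ext
    · intro r
      simp [Psi, psi]
    · intro i
      simp only [Psi, psi, RingHom.coe_comp, Function.comp_apply, Polynomial.coe_eval₂RingHom,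
        Polynomial.eval₂_C, coe_eval₂Hom, eval₂_X, Polynomial.eval₂_add, Polynomial.eval₂_mul,
        Polynomial.eval₂_X, RingHom.id_apply, eval₂_C]
      have h1 : v i = - u i := by linarith [h i]
      rw [h1, C_neg, Polynomial.C_neg]
      ring
  · simp [Psi]

/-- as an equivalence -/
noncomputable def PsiE (u : ι → ℤ) :
    Polynomial (MvPolynomial ι ℤ) ≃+* Polynomial (MvPolynomial ι ℤ) :=
  RingEquiv.ofRingHom (Psi u) (Psi fun i => -u i) (Psi_comp _ _ fun i => by ring)
    (Psi_comp _ _ fun i => by ring)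

lemma PsiE_C (u : ι → ℤ) (F : MvPolynomial ι ℤ) : PsiE u (Polynomial.C F) = psi u F := Psi_C u F

lemma psi_prime (u : ι → ℤ) {F : MvPolynomial ι ℤ} (hF : Prime F) : Prime (psi u F) := by
  rw [← PsiE_C, MulEquiv.prime_iff (PsiE u)]
  exact Polynomial.prime_C_iff.2 hF

lemma psi_dvd (u : ι → ℤ) {F G : MvPolynomial ι ℤ} (h : psi u F ∣ psi u G) : F ∣ G := by
  rw [← PsiE_C, ← PsiE_C, map_dvd_iff (PsiE u), Polynomial.C_dvd_iff_dvd_coeff] at h
  simpa using h 0

lemma totalDegree_le_degree {F : MvPolynomial ι ℤ} {s : ι →₀ ℕ} (hs : s ∈ F.support) :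
    s.degree ≤ F.totalDegree := by
  have := le_totalDegree hs
  rwa [Finsupp.degree_apply]

lemma natDegree_lin (u : ι → ℤ) (i : ι) : (psi u (X i)).natDegree ≤ 1 := by
  rw [psi_X, add_comm]
  exact Polynomial.natDegree_linear_le

lemma psi_monomial (u : ι → ℤ) (s : ι →₀ ℕ) (a : ℤ) :
    psi u (monomial s a) = Polynomial.C (C a) * ∏ i ∈ s.support, psi u (X i) ^ s i := by
  rw [monomial_eq, map_mul, psi_C, Finsupp.prod, map_prod]
  simp only [map_pow]

lemma prod_aux (u : ι → ℤ) (s : ι →₀ ℕ) (S : Finset ι) :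
    (∏ i ∈ S, psi u (X i) ^ s i).natDegree ≤ ∑ i ∈ S, s i ∧
      (∏ i ∈ S, psi u (X i) ^ s i).coeff (∑ i ∈ S, s i) = C (∏ i ∈ S, u i ^ s i) := by
  classical
  induction S using Finset.induction_on with
  | empty => simp
  | insert a S ha ih =>
    have h1 : (psi u (X a) ^ s a).natDegree ≤ s a := by
      have := Polynomial.natDegree_pow_le_of_le (s a) (natDegree_lin u a)
      simpa using this
    have h2 : (psi u (X a) ^ s a).coeff (s a) = C (u a ^ s a) := by
      have := Polynomial.coeff_pow_of_natDegree_le (m := s a) (natDegree_lin u a)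
      rw [mul_one] at this
      rw [this, psi_X]
      simp
    rw [Finset.prod_insert ha, Finset.sum_insert ha, Finset.prod_insert ha]
    refine ⟨Polynomial.natDegree_mul_le_of_le h1 ih.1, ?_⟩
    rw [Polynomial.coeff_mul_add_eq_of_natDegree_le h1 ih.1, h2, ih.2, ← C_mul]

lemma natDegree_psi_monomial (u : ι → ℤ) (s : ι →₀ ℕ) (a : ℤ) :
    (psi u (monomial s a)).natDegree ≤ s.degree := by
  rw [psi_monomial, Finsupp.degree_apply]
  refine (Polynomial.natDegree_C_mul_le _ _).trans ?_
  exact (prod_aux u s s.support).1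

lemma psi_eq_sum (u : ι → ℤ) (F : MvPolynomial ι ℤ) :
    psi u F = ∑ s ∈ F.support, psi u (monomial s (coeff s F)) := by
  conv_lhs => rw [F.as_sum]
  rw [map_sum]

lemma natDegree_psi (u : ι → ℤ) (F : MvPolynomial ι ℤ) :
    (psi u F).natDegree ≤ F.totalDegree := by
  rw [psi_eq_sum]
  refine Polynomial.natDegree_sum_le_of_forall_le _ _ fun s hs => ?_
  exact (natDegree_psi_monomial u s _).trans (totalDegree_le_degree hs)

lemma coeff_psi (u : ι → ℤ) (F : MvPolynomial ι ℤ) :
    (psi u F).coeff F.totalDegree = C (eval u (homogeneousComponent F.totalDegree F)) := by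
  classical
  rw [psi_eq_sum, Polynomial.finsetSum_coeff, homogeneousComponent_apply, map_sum, map_sum,
    Finset.sum_filter]
  refine Finset.sum_congr rfl fun s hs => ?_
  split_ifs with h
  · rw [psi_monomial, Polynomial.coeff_C_mul, ← h, Finsupp.degree_apply, (prod_aux u s s.support).2,
      eval_monomial, C_mul]
    rfl
  · apply Polynomial.coeff_eq_zero_of_natDegree_lt
    exact (natDegree_psi_monomial u s _).trans_lt (lt_of_le_of_ne (totalDegree_le_degree hs) h)

/-- a direction in which the leading form does not vanish -/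
lemma exists_dir {F : MvPolynomial ι ℤ} (hF : 0 < F.totalDegree) :
    ∃ (u : ι → ℤ) (c : ℤ), c ≠ 0 ∧ (psi u F).coeff F.totalDegree = C c := by
  by_contra hcon
  push Not at hcon
  have h0 : homogeneousComponent F.totalDegree F = 0 := by
    apply MvPolynomial.funext
    intro u
    rw [map_zero]
    by_contra hne
    exact hcon u _ hne (coeff_psi u F)
  have hne : F.support.Nonempty := by
    rw [support_nonempty]
    rintro rfl
    simp at hF
  obtain ⟨s, hs, hs'⟩ := Finset.exists_mem_eq_sup F.support hne fun s => s.sum fun _ n => n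
  have h1 : coeff s (homogeneousComponent F.totalDegree F) = coeff s F := by
    rw [coeff_homogeneousComponent, if_pos]
    rw [totalDegree, hs', Finsupp.degree_apply]
    rfl
  rw [h0, coeff_zero] at h1
  exact (mem_support_iff.1 hs) h1.symm

/-- the resultant does not vanish -/
lemma res_ne_zero (u : ι → ℤ) {F G : MvPolynomial ι ℤ} (hF : Prime F) (hd : 0 < F.totalDegree)
    (hFG : ¬ F ∣ G) {c : ℤ} (hc : c ≠ 0) (hcoef : (psi u F).coeff F.totalDegree = C c) {D : ℕ}
    (hG : G.totalDegree ≤ D) :
    (psi u F).resultant (psi u G) F.totalDegree D ≠ 0 := by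
  set f := psi u F with hf
  set g := psi u G with hg
  set K := FractionRing (MvPolynomial ι ℤ) with hK
  have hinj : Function.Injective (algebraMap (MvPolynomial ι ℤ) K) :=
    IsFractionRing.injective _ _
  have hCc : (C c : MvPolynomial ι ℤ) ≠ 0 := by
    rw [Ne, C_eq_zero]; exact hc
  have hfd : f.natDegree = F.totalDegree :=
    Polynomial.natDegree_eq_of_le_of_coeff_ne_zero (natDegree_psi u F) (by rw [hcoef]; exact hCc)
  have hgd : g.natDegree ≤ D := (natDegree_psi u G).trans hG
  have hfp : Prime f := psi_prime u hF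
  have hprim : f.IsPrimitive := hfp.irreducible.isPrimitive (by rw [hfd]; omega)
  have hirr : Irreducible (f.map (algebraMap (MvPolynomial ι ℤ) K)) :=
    (hprim.irreducible_iff_irreducible_map_fraction_map (K := K)).1 hfp.irreducible
  have hnd : ¬ f.map (algebraMap (MvPolynomial ι ℤ) K) ∣ g.map (algebraMap (MvPolynomial ι ℤ) K) := by
    rintro ⟨a, ha⟩
    have h1 : a * f.map (algebraMap (MvPolynomial ι ℤ) K) ∈
        Polynomial.lifts (algebraMap (MvPolynomial ι ℤ) K) := by
      rw [mul_comm, ← ha]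
      exact ⟨g, rfl⟩
    rw [hprim.mul_map_mem_lifts_iff] at h1
    obtain ⟨b, hb⟩ := h1
    have hb' : b.map (algebraMap (MvPolynomial ι ℤ) K) = a := hb
    rw [← hb', ← Polynomial.map_mul] at ha
    have h2 : g = f * b := Polynomial.map_injective _ hinj ha
    exact hFG (psi_dvd u ⟨b, h2⟩)
  have hcop : IsCoprime (f.map (algebraMap (MvPolynomial ι ℤ) K))
      (g.map (algebraMap (MvPolynomial ι ℤ) K)) := hirr.coprime_iff_not_dvd.2 hnd
  have h3 := Polynomial.resultant_ne_zero _ _ hcop
  rw [Polynomial.natDegree_map_eq_of_injective hinj, Polynomial.natDegree_map_eq_of_injective hinj,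
    Polynomial.resultant_map_map, hfd] at h3
  have h4 : f.resultant g F.totalDegree g.natDegree ≠ 0 := fun h => h3 (by rw [h, map_zero])
  obtain ⟨k, hk⟩ := Nat.exists_eq_add_of_le hgd
  rw [hk, Polynomial.resultant_add_right_deg _ _ _ _ _ le_rfl, hcoef]
  exact mul_ne_zero (pow_ne_zero _ hCc) h4

end Pool.Agent.H525.MV.XC
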