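import Pool.Agent.H525.MV.Sum
import Pool.Agent.H525.AC.Cov2
import Pool.Agent.H525.NF.Cover

set_option autoImplicit false
set_option linter.unusedSectionVars false

/-! # Exclusive sets, colours and the counting of events -/

namespace Pool.Agent.H525.MV

open Finset NumberField MvPolynomial Pool.Agent.H256R2.SC
open Pool.Agent.H525.NF (Box mem_Box mem_PR enum enum_mem enum_inj sum_enum)
open Pool.Agent.H474R2.PG (PR)

open scoped Classical

theorem excl {κ V : Type} [Fintype κ] (Z : κ → Finset V) (N E m : ℕ)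
    (hN : ∀ k, N ≤ (Z k).card)
    (hE' : ∀ k l, k ≠ l → Nat.card {x // x ∈ Z k ∧ x ∈ Z l} ≤ E)
    (hm : m + Fintype.card κ * E ≤ N) :
    ∃ B : κ → Finset V, (∀ k, B k ⊆ Z k) ∧ (∀ k l, k ≠ l → Disjoint (B k) (B l)) ∧
      ∀ k, (B k).card = m := by
  have hE : ∀ k l, k ≠ l → (Z k ∩ Z l).card ≤ E := by
    intro k l hkl
    refine le_trans (le_of_eq ?_) (hE' k l hkl)
    exact (Nat.subtype_card _ (fun x => by rw [mem_inter])).symm
  have h1 : ∀ k, ∃ B : Finset V,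
      B ⊆ Z k \ (univ.erase k).biUnion (fun l => Z k ∩ Z l) ∧ B.card = m := by
    intro k
    apply Finset.exists_subset_card_eq
    have h2 : ((univ.erase k).biUnion (fun l => Z k ∩ Z l)).card ≤ Fintype.card κ * E := by
      refine (Finset.card_biUnion_le_card_mul _ _ E
        (fun l hl => hE k l (Ne.symm (ne_of_mem_erase hl)))).trans ?_
      apply Nat.mul_le_mul_right
      exact Finset.card_le_univ _
    have h3 := Finset.le_card_sdiff ((univ.erase k).biUnion (fun l => Z k ∩ Z l)) (Z k)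
    have := hN k
    omega
  choose B hB1 hB2 using h1
  refine ⟨B, fun k => (hB1 k).trans sdiff_subset, ?_, hB2⟩
  intro k l hkl
  rw [Finset.disjoint_left]
  intro x hx hy
  have h4 := hB1 k hx
  rw [mem_sdiff] at h4
  apply h4.2
  rw [mem_biUnion]
  exact ⟨l, mem_erase.2 ⟨Ne.symm hkl, mem_univ _⟩,
    mem_inter.2 ⟨h4.1, (mem_sdiff.1 (hB1 l hy)).1⟩⟩

/-- the colour of a point -/
noncomputable def colB {κ V : Type} (B : κ → Finset V) (u : V) : Option κ :=
  if h : ∃ k, u ∈ B k then some (Classical.choose h) else none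

theorem colB_eq {κ V : Type} {B : κ → Finset V} (hdis : ∀ k l, k ≠ l → Disjoint (B k) (B l))
    (u : V) (k : κ) : colB B u = some k ↔ u ∈ B k := by
  unfold colB
  constructor
  · intro h
    split_ifs at h with h1
    have h2 : Classical.choose h1 = k := Option.some.inj h
    rw [← h2]
    exact Classical.choose_spec h1
  · intro h
    have h1 : ∃ k, u ∈ B k := ⟨k, h⟩
    rw [dif_pos h1]
    congr 1
    by_contra hne
    exact Finset.disjoint_left.1 (hdis _ _ hne) (Classical.choose_spec h1) h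

variable {ι : Type} [Fintype ι]

/-- counting the points with given colours -/
theorem event_mv (hCNT : S_CNT) {κ : Type} (W : ℕ) (hW : 1 ≤ W) (a₀ : ι → ℤ) (P : Finset ℕ)
    (hP : ∀ p ∈ P, p.Prime ∧ ¬ p ∣ W) (B : (p : ℕ) → κ → Finset (ι → ZMod p))
    (hdis : ∀ p ∈ P, ∀ k l, k ≠ l → Disjoint (B p k) (B p l)) (m : ℕ → ℕ)
    (hm : ∀ p ∈ P, ∀ k, (B p k).card = m p) (hmp : ∀ p ∈ P, m p ≤ p ^ Fintype.card ι)
    (M : ι → ℤ) (T : ℕ) (𝒜 : Finset (ι → ℤ))
    (h𝒜 : 𝒜 ⊆ (Box M T).filter (fun a => ∀ i, (W : ℤ) ∣ a i - a₀ i)) (E₂ : ℝ)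
    (hE₂ : ((((Box M T).filter (fun a => ∀ i, (W : ℤ) ∣ a i - a₀ i)) \ 𝒜).card : ℝ) ≤ E₂)
    (hn : 0 < Fintype.card ι)
    (Dc : Col P.card κ) (Q : ℝ) (hQ : ∏ i with Dc i ≠ none, ((enum P i : ℕ) : ℝ) ≤ Q)
    (hQT : Q ≤ T / W) :
    |((𝒜.filter (fun a => ∀ i, Dc i ≠ none →
      colB (B (enum P i)) (fun j => ((a j : ℤ) : ZMod (enum P i))) = Dc i)).card : ℝ) -
      ((T : ℝ) / W) ^ Fintype.card ι *
        ∏ i with Dc i ≠ none, (m (enum P i) : ℝ) / ((enum P i : ℕ) : ℝ) ^ Fintype.card ι| ≤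
      Fintype.card ι * Q * (2 * ((T : ℝ) / W)) ^ (Fintype.card ι - 1) + E₂ := by
  set S : Finset (Fin P.card) := univ.filter (fun i => Dc i ≠ none) with hS
  set kk : ℕ → Option κ := fun p => if h : p ∈ P then Dc (P.equivFin ⟨p, h⟩) else none with hkk
  have hkke : ∀ i, kk (enum P i) = Dc i := by
    intro i
    rw [hkk]
    dsimp only
    rw [dif_pos (enum_mem P i)]
    congr 1
    unfold enum
    exact P.equivFin.apply_symm_apply i
  set B' : (p : ℕ) → Finset (ι → ZMod p) := fun p => match kk p with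
    | none => ∅
    | some k => B p k with hB'
  have hB'e : ∀ i k, Dc i = some k → B' (enum P i) = B (enum P i) k := by
    intro i k hk
    rw [hB']
    dsimp only
    rw [hkke i, hk]
  set P' : Finset ℕ := S.image (enum P) with hP'
  have hinj : Set.InjOn (enum P) (S : Set (Fin P.card)) := (enum_inj P).injOn
  have hP'P : ∀ p ∈ P', p ∈ P := by
    intro p hp
    rw [hP', mem_image] at hp
    obtain ⟨i, _, rfl⟩ := hp
    exact enum_mem P i
  have hcard : ∀ i ∈ S, (B' (enum P i)).card = m (enum P i) := by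
    intro i hi
    obtain ⟨k, hk⟩ := Option.ne_none_iff_exists'.1 (mem_filter.1 hi).2
    rw [hB'e i k hk]
    exact hm _ (enum_mem P i) k
  set F := (Box M T).filter (fun a => (∀ i, (W : ℤ) ∣ a i - a₀ i) ∧
        ∀ p ∈ P', (fun i => ((a i : ℤ) : ZMod p)) ∈ B' p) with hF
  have hcnt := hCNT ι W a₀ P' B' hW (fun p hp => hP p (hP'P p hp)) M T
  rw [← hF] at hcnt
  have hiff : ∀ a : ι → ℤ, (∀ p ∈ P', (fun i => ((a i : ℤ) : ZMod p)) ∈ B' p) ↔
      (∀ i, Dc i ≠ none → colB (B (enum P i)) (fun j => ((a j : ℤ) : ZMod (enum P i))) = Dc i) := by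
    intro a
    constructor
    · intro h i hi
      obtain ⟨k, hk⟩ := Option.ne_none_iff_exists'.1 hi
      have h2 := h (enum P i) (mem_image_of_mem _ (mem_filter.2 ⟨mem_univ _, hi⟩))
      rw [hB'e i k hk] at h2
      rw [hk, colB_eq (hdis _ (enum_mem P i))]
      exact h2
    · intro h p hp
      rw [hP', mem_image] at hp
      obtain ⟨i, hi, rfl⟩ := hp
      have hi' := (mem_filter.1 hi).2
      obtain ⟨k, hk⟩ := Option.ne_none_iff_exists'.1 hi'
      have h2 := h i hi'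
      rw [hk, colB_eq (hdis _ (enum_mem P i))] at h2
      rw [hB'e i k hk]
      exact h2
  set G := 𝒜.filter (fun a => ∀ i, Dc i ≠ none →
      colB (B (enum P i)) (fun j => ((a j : ℤ) : ZMod (enum P i))) = Dc i) with hG
  set 𝒰 := (Box M T).filter (fun a => ∀ i, (W : ℤ) ∣ a i - a₀ i) with h𝒰
  have hGF : G ⊆ F := by
    intro a ha
    rw [hG, mem_filter] at ha
    have h3 := h𝒜 ha.1
    rw [h𝒰, mem_filter] at h3
    rw [hF, mem_filter]
    exact ⟨h3.1, h3.2, (hiff a).2 ha.2⟩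
  have hFG : F ⊆ G ∪ (𝒰 \ 𝒜) := by
    intro a ha
    rw [hF, mem_filter] at ha
    rw [Finset.mem_union, Finset.mem_sdiff, hG, mem_filter]
    by_cases h : a ∈ 𝒜
    · exact Or.inl ⟨h, (hiff a).1 ha.2.2⟩
    · exact Or.inr ⟨by rw [h𝒰, mem_filter]; exact ⟨ha.1, ha.2.1⟩, h⟩
  have h2 : (G.card : ℝ) ≤ F.card := by exact_mod_cast Finset.card_le_card hGF
  have h3 : (F.card : ℝ) ≤ G.card + E₂ := by
    have h4 := (Finset.card_le_card hFG).trans (Finset.card_union_le _ _)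
    have h5 : (F.card : ℝ) ≤ G.card + (𝒰 \ 𝒜).card := by exact_mod_cast h4
    linarith
  -- the products
  have hpr1 : ∏ p ∈ P', ((B' p).card : ℝ) / (p : ℝ) ^ Fintype.card ι =
      ∏ i ∈ S, (m (enum P i) : ℝ) / ((enum P i : ℕ) : ℝ) ^ Fintype.card ι := by
    rw [hP', Finset.prod_image hinj]
    apply Finset.prod_congr rfl
    intro i hi
    rw [hcard i hi]
  have hpr2 : ∏ p ∈ P', ((B' p).card : ℝ) = ∏ i ∈ S, (m (enum P i) : ℝ) := by
    rw [hP', Finset.prod_image hinj]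
    apply Finset.prod_congr rfl
    intro i hi
    rw [hcard i hi]
  have hpr3 : ∏ p ∈ P', (p : ℝ) = ∏ i ∈ S, ((enum P i : ℕ) : ℝ) := by
    rw [hP', Finset.prod_image hinj]
  rw [hpr1, hpr2, hpr3] at hcnt
  have hpos : ∀ i, (1:ℝ) ≤ ((enum P i : ℕ) : ℝ) := fun i => by
    have := (hP _ (enum_mem P i)).1.pos
    exact_mod_cast this
  set Pi₀ : ℝ := ∏ i ∈ S, ((enum P i : ℕ) : ℝ) with hPid
  have hPi1 : 1 ≤ Pi₀ := by
    rw [hPid, ← Finset.prod_const_one (s := S)]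
    exact Finset.prod_le_prod (fun _ _ => zero_le_one) (fun i _ => hpos i)
  have hmPi : ∏ i ∈ S, (m (enum P i) : ℝ) ≤ Pi₀ ^ Fintype.card ι := by
    rw [hPid, ← Finset.prod_pow]
    apply Finset.prod_le_prod (fun i _ => Nat.cast_nonneg _)
    intro i _
    exact_mod_cast hmp _ (enum_mem P i)
  have hW0 : (0:ℝ) < W := by exact_mod_cast hW
  have hT0 : (0:ℝ) ≤ T := Nat.cast_nonneg _
  have herr : Fintype.card ι * (∏ i ∈ S, (m (enum P i) : ℝ)) *
      ((T : ℝ) / (W * Pi₀) + 1) ^ (Fintype.card ι - 1) ≤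
      Fintype.card ι * Q * (2 * ((T : ℝ) / W)) ^ (Fintype.card ι - 1) := by
    obtain ⟨n, hn'⟩ : ∃ n, Fintype.card ι = n + 1 := ⟨Fintype.card ι - 1, by omega⟩
    rw [hn'] at hmPi ⊢
    rw [Nat.add_sub_cancel]
    have hPi0 : 0 < Pi₀ := by linarith
    have e1 : (T : ℝ) / (W * Pi₀) + 1 = ((T : ℝ) / W + Pi₀) / Pi₀ := by
      field_simp
    rw [e1, div_pow]
    have h6 : ((T : ℝ) / W + Pi₀) ^ n ≤ (2 * ((T : ℝ) / W)) ^ n := by
      apply pow_le_pow_left₀ (by positivity)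
      have : Pi₀ ≤ T / W := hQ.trans hQT
      linarith
    rw [mul_assoc, mul_assoc]
    apply mul_le_mul_of_nonneg_left _ (Nat.cast_nonneg _)
    calc (∏ i ∈ S, (m (enum P i) : ℝ)) * (((T : ℝ) / W + Pi₀) ^ n / Pi₀ ^ n)
        ≤ Pi₀ ^ (n + 1) * (((T : ℝ) / W + Pi₀) ^ n / Pi₀ ^ n) :=
          mul_le_mul_of_nonneg_right hmPi (by positivity)
      _ = Pi₀ * ((T : ℝ) / W + Pi₀) ^ n := by rw [pow_succ]; field_simp
      _ ≤ Q * (2 * ((T : ℝ) / W)) ^ n := mul_le_mul hQ h6 (by positivity) (by linarith)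
  rw [abs_le] at hcnt ⊢
  have hE0 : 0 ≤ E₂ := le_trans (Nat.cast_nonneg _) hE₂
  constructor <;> linarith [hcnt.1, hcnt.2]

end Pool.Agent.H525.MV
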