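import Pool.Agent.H525.MV.Stm

set_option autoImplicit false

namespace Pool.Agent.H525.MV.XF

open MvPolynomial

/-- a nonconstant polynomial has a nonconstant irreducible factor -/
theorem t_FAC : Pool.Agent.H525.MV.S_FAC := by
  intro ι _ F hF
  have hF0 : F ≠ 0 := by
    rintro rfl
    simp at hF
  -- strong form: induction on the factorisation
  have key : ∀ F : MvPolynomial ι ℤ, F ≠ 0 → 0 < F.totalDegree →
      ∃ F₁ G : MvPolynomial ι ℤ, F = F₁ * G ∧ Irreducible F₁ ∧ 0 < F₁.totalDegree := by
    intro F
    induction F using WfDvdMonoid.induction_on_irreducible with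
    | zero => intro h; exact absurd rfl h
    | unit u hu =>
      intro h0 h
      exfalso
      obtain ⟨v, hv⟩ := hu.exists_right_inv
      have hv0 : v ≠ 0 := by
        rintro rfl
        rw [mul_zero] at hv
        exact zero_ne_one hv
      have h1 := totalDegree_mul_of_isDomain h0 hv0
      rw [hv, totalDegree_one] at h1
      omega
    | mul a i ha hi ih =>
      intro h0 h
      by_cases hd : 0 < i.totalDegree
      · exact ⟨i, a, rfl, hi, hd⟩
      · have h1 := totalDegree_mul_of_isDomain hi.ne_zero ha
        have h2 : 0 < a.totalDegree := by omega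
        obtain ⟨F₁, G, h3, h4, h5⟩ := ih ha h2
        exact ⟨F₁, G * i, by rw [h3]; ring, h4, h5⟩
  exact key F hF0 hF

end Pool.Agent.H525.MV.XF
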