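import Pool.Agent.H525.MV.Main

set_option autoImplicit false
set_option linter.unusedSectionVars false

/-! # Boxes without prime values -/

namespace Pool.Agent.H525.MV

open Finset NumberField MvPolynomial Pool.Agent.H256R2.SC
open Pool.Agent.H525.NF (Box mem_Box mem_PR enum enum_mem enum_inj sum_enum)
open Pool.Agent.H474R2.PG (PR)

open scoped Classical

variable {ι : Type} [Fintype ι]

theorem zc_le (F : MvPolynomial ι ℤ) (p : ℕ) (hp : p.Prime) : zc F p ≤ p ^ Fintype.card ι := by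
  have : Fact p.Prime := ⟨hp⟩
  unfold zc
  refine (Nat.card_le_card_of_injective (fun x : {x : ι → ZMod p // eval x (red F p) = 0} => x.1)
    Subtype.val_injective).trans ?_
  rw [Nat.card_eq_fintype_card, Fintype.card_fun, ZMod.card]

theorem dvd_eval_congr (F : MvPolynomial ι ℤ) (p : ℕ) (a b : ι → ℤ)
    (h : ∀ i, (p : ℤ) ∣ a i - b i) (hb : (p : ℤ) ∣ eval b F) : (p : ℤ) ∣ eval a F := by
  rw [← ZMod.intCast_zmod_eq_zero_iff_dvd] at hb ⊢
  have h1 := MvPolynomial.map_eval (Int.castRingHom (ZMod p)) a F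
  have h2 := MvPolynomial.map_eval (Int.castRingHom (ZMod p)) b F
  have h3 : (⇑(Int.castRingHom (ZMod p)) ∘ a) = (⇑(Int.castRingHom (ZMod p)) ∘ b) := by
    funext i
    change ((a i : ℤ) : ZMod p) = ((b i : ℤ) : ZMod p)
    have := h i
    rw [← ZMod.intCast_zmod_eq_zero_iff_dvd] at this
    push_cast at this
    exact sub_eq_zero.1 this
  rw [h3, ← h2] at h1
  exact h1.trans hb

theorem primorial_dvd {p m : ℕ} (hp : p.Prime) (h : p ∣ primorial m) : p ≤ m := by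
  unfold primorial at h
  obtain ⟨q, hq, hpq⟩ := (hp.prime.dvd_finsetProd_iff _).1 h
  rw [mem_filter, mem_range] at hq
  have := (Nat.prime_dvd_prime_iff_eq hp hq.2).1 hpq
  omega

theorem dvd_primorial' {p m : ℕ} (hp : p.Prime) (h : p ≤ m) : p ∣ primorial m := by
  unfold primorial
  apply Finset.dvd_prod_of_mem
  rw [mem_filter, mem_range]
  exact ⟨by omega, hp⟩

theorem survivors (hMER : S_MER) (hCLS : S_CLS) (F : MvPolynomial ι ℤ) (hF : Irreducible F)
    (hF0 : 0 < F.totalDegree) : ∃ C : ℝ, 0 < C ∧ ∀ y : ℝ, 3 ≤ y → ∀ H₀ : Finset (ι → ℤ),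
    ∃ a₀ : ι → ℤ, ((H₀.filter (fun h => ∀ p ∈ PR y,
      ¬ (p : ℤ) ∣ eval (fun i => a₀ i + h i) F)).card : ℝ) ≤ H₀.card * (C / Real.log y) := by
  obtain ⟨C, hC0, hC⟩ := hMER ι F hF hF0
  refine ⟨Real.exp C, Real.exp_pos _, fun y hy H₀ => ?_⟩
  obtain ⟨a₀, ha₀⟩ := hCLS ι F H₀ (PR y) (fun p hp => (mem_PR.1 hp).1)
  refine ⟨a₀, ?_⟩
  refine ha₀.trans (mul_le_mul_of_nonneg_left ?_ (Nat.cast_nonneg _))
  have h1 : ∏ p ∈ PR y, (1 - (zc F p : ℝ) / (p : ℝ) ^ Fintype.card ι) ≤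
      ∏ p ∈ PR y, Real.exp (-((zc F p : ℝ) / (p : ℝ) ^ Fintype.card ι)) := by
    apply Finset.prod_le_prod
    · intro p hp
      have hp' := (mem_PR.1 hp).1
      have h2 : (zc F p : ℝ) ≤ (p:ℝ) ^ Fintype.card ι := by exact_mod_cast zc_le F p hp'
      have h3 : (0:ℝ) < (p:ℝ) ^ Fintype.card ι := by
        have : (0:ℝ) < p := by exact_mod_cast hp'.pos
        positivity
      rw [sub_nonneg, div_le_one h3]
      exact h2
    · intro p _
      have := Real.add_one_le_exp (-((zc F p : ℝ) / (p : ℝ) ^ Fintype.card ι))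
      linarith
  refine h1.trans ?_
  rw [← Real.exp_sum, Finset.sum_neg_distrib]
  have h2 := (abs_le.1 (hC y hy)).1
  have hly : 0 < Real.log y := Real.log_pos (by linarith)
  calc Real.exp (-∑ p ∈ PR y, (zc F p : ℝ) / (p : ℝ) ^ Fintype.card ι)
      ≤ Real.exp (C - Real.log (Real.log y)) := Real.exp_le_exp.2 (by linarith)
    _ = Real.exp C / Real.log y := by rw [Real.exp_sub, Real.exp_log hly]

theorem fin (hTR : S_TR) (hCOD : S_COD) (hLW : S_LW) (hMER : S_MER) (hSZ : S_SZ)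
    (hCLS : S_CLS) (hCNT : S_CNT) (hFAC : S_FAC) (F : MvPolynomial ι ℤ)
    (hF : 0 < F.totalDegree) :
    ∃ c : ℝ, 0 < c ∧ ∃ T₀ : ℕ, ∀ T : ℕ, T₀ ≤ T → ∀ M : ι → ℤ, ∃ x : ι → ℤ,
      (∀ i, M i ≤ x i ∧ x i < M i + T) ∧ ∀ y : ι → ℤ,
      (∀ i, |((y i : ℝ) - x i)| ^ Fintype.card ι ≤ c * (Real.log T * Real.log (Real.log T))) →
      (T : ℝ) ^ (1 / 4 : ℝ) < |((eval y F : ℤ) : ℝ)| ∧
      ∃ p : ℕ, p.Prime ∧ (p : ℝ) ≤ (T : ℝ) ^ (1 / Real.log (Real.log T)) ∧
        (p : ℤ) ∣ eval y F := by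
  obtain ⟨F₁, G, hFG, hF₁, hF₁0⟩ := hFAC ι F hF
  obtain ⟨c, L₁, hc, hcov⟩ := mv_cover hTR hCOD hLW hMER hSZ hCNT F₁ hF₁ hF₁0 F hF
  obtain ⟨C, hC, hsur⟩ := survivors hMER hCLS F₁ hF₁ hF₁0
  have hn := card_pos_of hF
  set n : ℕ := Fintype.card ι with hndef
  have hn1 : (1:ℝ) ≤ n := by exact_mod_cast hn
  have h3n : (1:ℝ) ≤ 3 ^ n := one_le_pow₀ (by norm_num)
  set c₂ : ℝ := min (c / (2 * 3 ^ n * C)) 1 with hc₂
  have hc₂0 : 0 < c₂ := lt_min (by positivity) one_pos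
  have hc₂1 : c₂ ≤ 1 := min_le_right _ _
  have hc₂c : c₂ * (2 * 3 ^ n * C) ≤ c := by
    have := min_le_left (c / (2 * 3 ^ n * C)) 1
    rw [← hc₂, le_div_iff₀ (by positivity)] at this
    exact this
  -- large `L`
  have hlog2 : ∀ᶠ L : ℝ in Filter.atTop, Real.log L ^ 2 ≤ L := by
    have h1 := (Real.isLittleO_pow_log_id_atTop (n := 2)).bound (one_pos)
    filter_upwards [h1, Filter.eventually_ge_atTop (0:ℝ)] with L hL hL0
    rw [id, Real.norm_eq_abs, Real.norm_eq_abs, one_mul, abs_of_nonneg hL0] at hL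
    exact (le_abs_self _).trans hL
  obtain ⟨L₂, hL₂⟩ := Filter.eventually_atTop.1 hlog2
  set L₃ : ℝ := max (max L₁ L₂) ((max (max (100 * (n:ℝ) ^ 2) (1 / c₂)) ((3:ℝ) ^ n)) ^ 2 + 100) with hL₃
  refine ⟨c₂, hc₂0, ⌈Real.exp L₃⌉₊, fun T hT M => ?_⟩
  have hTexp : Real.exp L₃ ≤ T := (Nat.le_ceil _).trans (by exact_mod_cast hT)
  have hT0 : (0:ℝ) < T := lt_of_lt_of_le (Real.exp_pos _) hTexp
  set L : ℝ := Real.log T with hL
  have hLL₃ : L₃ ≤ L := by
    rw [hL, Real.le_log_iff_exp_le hT0]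
    exact hTexp
  have hexpL : Real.exp L = T := Real.exp_log hT0
  have hLL₁ : L₁ ≤ L := ((le_max_left _ _).trans (le_max_left _ _)).trans hLL₃
  have hLL₂ : L₂ ≤ L := ((le_max_right _ _).trans (le_max_left _ _)).trans hLL₃
  set m₀ : ℝ := max (max (100 * (n:ℝ) ^ 2) (1 / c₂)) ((3:ℝ) ^ n) with hm₀
  have hm₀1 : 1 ≤ m₀ := h3n.trans (le_max_right _ _)
  have hLm : m₀ ^ 2 + 100 ≤ L := (le_max_right _ _).trans hLL₃
  have hm₀2 : m₀ ≤ m₀ ^ 2 := by nlinarith
  have hL100 : 100 ≤ L := by nlinarith [sq_nonneg m₀]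
  have hL0 : 0 < L := by linarith
  have hLn : 100 * (n:ℝ) ^ 2 ≤ L := by
    have : 100 * (n:ℝ) ^ 2 ≤ m₀ := (le_max_left _ _).trans (le_max_left _ _)
    linarith
  have hLc : 1 / c₂ ≤ L := by
    have : 1 / c₂ ≤ m₀ := (le_max_right _ _).trans (le_max_left _ _)
    linarith
  have hL3 : (3:ℝ) ^ n ^ 1 * 1 ≤ m₀ := by
    rw [pow_one, mul_one]
    exact le_max_right _ _
  have hL9 : ((3:ℝ) ^ n) ^ 2 ≤ L := by
    have h1 : (3:ℝ) ^ n ≤ m₀ := le_max_right _ _
    have h2 : ((3:ℝ) ^ n) ^ 2 ≤ m₀ ^ 2 := pow_le_pow_left₀ (by positivity) h1 2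
    linarith
  have hlogsq := hL₂ L hLL₂
  have hlogL : 1 ≤ Real.log L := by
    rw [Real.le_log_iff_exp_le hL0]
    have := Real.exp_one_lt_d9
    linarith
  have hlogL0 : 0 < Real.log L := by linarith
  -- the size
  set X : ℝ := c₂ * (L * Real.log L) with hX
  have hX1 : 1 ≤ X := by
    have h1 : 1 ≤ c₂ * L := by
      rw [div_le_iff₀ hc₂0] at hLc
      linarith
    have h2 : c₂ * L * 1 ≤ c₂ * L * Real.log L := mul_le_mul_of_nonneg_left hlogL (by positivity)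
    rw [hX]
    linarith
  have hXL : X ≤ L * Real.log L := by
    rw [hX]
    exact mul_le_of_le_one_left (by positivity) hc₂1
  set r : ℝ := X ^ (1 / (n:ℝ)) with hr
  have hr1 : 1 ≤ r := Real.one_le_rpow hX1 (by positivity)
  have hrn : r ^ n = X := by
    rw [hr, ← Real.rpow_natCast, ← Real.rpow_mul (by linarith), one_div,
      inv_mul_cancel₀ (by positivity), Real.rpow_one]
  have hrX : r ≤ X := by
    rw [← hrn]
    exact le_self_pow₀ hr1 hn.ne'
  have hlogLL : Real.log L ≤ L := by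
    have := Real.log_le_sub_one_of_pos hL0
    linarith
  have hrL2 : r ≤ L ^ 2 := by
    refine hrX.trans (hXL.trans ?_)
    rw [pow_two]
    exact mul_le_mul_of_nonneg_left hlogLL hL0.le
  set B : ℕ := ⌊r⌋₊ with hB
  have hBr : (B:ℝ) ≤ r := Nat.floor_le (by linarith)
  set H₀ : Finset (ι → ℤ) := Fintype.piFinset (fun _ => Finset.Icc (-(B:ℤ)) B) with hH₀
  have hmemH : ∀ h : ι → ℤ, h ∈ H₀ ↔ ∀ i, |h i| ≤ (B:ℤ) := by
    intro h
    rw [hH₀, Fintype.mem_piFinset]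
    apply forall_congr'
    intro i
    rw [Finset.mem_Icc, abs_le]
  have hH₀c : (H₀.card : ℝ) ≤ 3 ^ n * X := by
    have h1 : H₀.card = (2 * B + 1) ^ n := by
      rw [hH₀, Fintype.card_piFinset, Finset.prod_const, Int.card_Icc, Finset.card_univ]
      congr 1
      omega
    rw [h1, ← hrn, ← mul_pow]
    push_cast
    apply pow_le_pow_left₀ (by positivity)
    linarith
  have hH₀L : (H₀.card : ℝ) ≤ L ^ 2 := by
    refine hH₀c.trans ?_
    have h1 : (3:ℝ) ^ n * Real.log L ≤ L := by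
      have h2 : ((3:ℝ) ^ n * Real.log L) ^ 2 ≤ L ^ 2 := by
        rw [mul_pow, pow_two L]
        exact mul_le_mul hL9 hlogsq (by positivity) hL0.le
      exact (pow_le_pow_iff_left₀ (by positivity) hL0.le (by norm_num)).1 h2
    calc 3 ^ n * X ≤ 3 ^ n * (L * Real.log L) := mul_le_mul_of_nonneg_left hXL (by positivity)
      _ = L * (3 ^ n * Real.log L) := by ring
      _ ≤ L * L := mul_le_mul_of_nonneg_left h1 hL0.le
      _ = L ^ 2 := by ring
  -- small primes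
  set y : ℝ := L / (10 * n) with hy
  have hny : (0:ℝ) < 10 * n := by positivity
  have hysq : Real.sqrt L ≤ y := by
    rw [hy, le_div_iff₀ hny]
    have h1 : 10 * (n:ℝ) ≤ Real.sqrt L := by
      apply Real.le_sqrt_of_sq_le
      calc (10 * (n:ℝ)) ^ 2 = 100 * (n:ℝ) ^ 2 := by ring
        _ ≤ L := hLn
    calc Real.sqrt L * (10 * n) ≤ Real.sqrt L * Real.sqrt L :=
          mul_le_mul_of_nonneg_left h1 (Real.sqrt_nonneg _)
      _ = L := Real.mul_self_sqrt hL0.le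
  have hy3 : 3 ≤ y := by
    refine le_trans ?_ hysq
    apply Real.le_sqrt_of_sq_le
    linarith
  have hyL : y ≤ L := by
    rw [hy]
    apply div_le_self hL0.le
    linarith
  have hlogy : Real.log L / 2 ≤ Real.log y := by
    rw [← Real.log_sqrt hL0.le]
    exact Real.log_le_log (Real.sqrt_pos.2 hL0) hysq
  obtain ⟨a₀, ha₀⟩ := hsur y hy3 H₀
  set V := H₀.filter (fun h => ∀ p ∈ PR y,
      ¬ (p : ℤ) ∣ eval (fun i => a₀ i + h i) F₁) with hV
  have hVc : (V.card : ℝ) ≤ c * L := by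
    refine ha₀.trans ?_
    calc (H₀.card : ℝ) * (C / Real.log y) ≤ (3 ^ n * X) * (C / (Real.log L / 2)) := by
          apply mul_le_mul hH₀c _ (div_nonneg hC.le (by linarith)) (by positivity)
          exact div_le_div_of_nonneg_left hC.le (by positivity) hlogy
      _ = c₂ * (2 * 3 ^ n * C) * L := by rw [hX]; field_simp
      _ ≤ c * L := mul_le_mul_of_nonneg_right hc₂c hL0.le
  set W : ℕ := primorial ⌊y⌋₊ with hW
  have hW1 : 1 ≤ W := primorial_pos _
  have hWn : (W:ℝ) ^ n ≤ Real.exp (L / 5) := by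
    have h1 : (W:ℝ) ≤ 4 ^ ⌊y⌋₊ := by exact_mod_cast primorial_le_four_pow ⌊y⌋₊
    have h2 : (W:ℝ) ^ n ≤ ((4:ℝ) ^ ⌊y⌋₊) ^ n := pow_le_pow_left₀ (Nat.cast_nonneg _) h1 n
    refine h2.trans ?_
    rw [← pow_mul]
    have h3 : ((⌊y⌋₊ * n : ℕ) : ℝ) ≤ L / 10 := by
      push_cast
      calc (⌊y⌋₊ : ℝ) * n ≤ y * n :=
            mul_le_mul_of_nonneg_right (Nat.floor_le (by linarith)) (by linarith)
        _ = L / 10 := by rw [hy]; field_simp
    have h4 : Real.log 4 ≤ 2 := by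
      have h5 : Real.log 4 = 2 * Real.log 2 := by
        rw [show (4:ℝ) = 2 ^ 2 by norm_num, Real.log_pow]; push_cast; ring
      rw [h5]
      have := Real.log_two_lt_d9
      linarith
    calc (4:ℝ) ^ (⌊y⌋₊ * n) = Real.exp (((⌊y⌋₊ * n : ℕ) : ℝ) * Real.log 4) := by
          rw [Real.exp_nat_mul, Real.exp_log (by norm_num)]
      _ ≤ Real.exp (L / 5) := by
          apply Real.exp_le_exp.2
          have h6 : (0:ℝ) ≤ Real.log 4 := Real.log_nonneg (by norm_num)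
          have h7 : ((⌊y⌋₊ * n : ℕ) : ℝ) * Real.log 4 ≤ L / 10 * 2 :=
            mul_le_mul h3 h4 h6 (by positivity)
          linarith
  obtain ⟨a, ha, haW, hbig, hsmall⟩ := hcov L hLL₁ V H₀
    (fun h hh i => by
      have h1 := (hmemH h).1 (mem_filter.1 hh).1 i
      have h2 : |(h i : ℝ)| ≤ B := by exact_mod_cast h1
      linarith) hVc hH₀L W a₀ hW1 hWn
    (fun p hp hpL hpW => by
      have h1 := primorial_dvd hp hpW
      have h2 : (p:ℝ) ≤ y := le_trans (by exact_mod_cast h1) (Nat.floor_le (by linarith))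
      nlinarith) M T (le_of_eq hexpL)
  have hsize : L / (1000 * Real.log L) ≤ L / Real.log L :=
    div_le_div_of_nonneg_left hL0.le hlogL0 (by linarith)
  have hTpow : (T:ℝ) ^ (1 / Real.log L) = Real.exp (L / Real.log L) := by
    rw [Real.rpow_def_of_pos hT0, ← hL]
    congr 1
    ring
  refine ⟨a, fun i => mem_Box.1 ha i, fun w hw => ?_⟩
  set h : ι → ℤ := fun i => w i - a i with hh
  have haw : (fun i => a i + h i) = w := by
    funext i
    rw [hh]
    ring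
  have hhH : h ∈ H₀ := by
    rw [hmemH]
    intro i
    have h1 : |(w i : ℝ) - a i| ^ n ≤ r ^ n := by
      rw [hrn]
      exact hw i
    have h2 : |(w i : ℝ) - a i| ≤ r :=
      (pow_le_pow_iff_left₀ (abs_nonneg _) (by linarith) hn.ne').1 h1
    have h3 : ((h i).natAbs : ℝ) ≤ r := by
      rw [Nat.cast_natAbs, hh]
      push_cast
      exact h2
    have h4 : (h i).natAbs ≤ B := Nat.le_floor h3
    have h5 : ((h i).natAbs : ℤ) ≤ (B : ℤ) := by exact_mod_cast h4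
    rwa [Int.natCast_natAbs] at h5
  have hb := hbig h hhH
  rw [haw] at hb
  refine ⟨?_, ?_⟩
  · rw [Real.rpow_def_of_pos hT0, ← hL]
    have e : L * (1 / 4) = L / 4 := by ring
    rw [e]
    exact hb
  · by_cases hhV : h ∈ V
    · obtain ⟨p, hp, hp1, hp2⟩ := hsmall h hhV
      rw [haw] at hp2
      refine ⟨p, hp, ?_, ?_⟩
      · have hp0 : (0:ℝ) < p := by exact_mod_cast hp.pos
        rw [hTpow, ← Real.log_le_iff_le_exp hp0]
        exact hp1.trans hsize
      · rw [hFG, map_mul]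
        exact Dvd.dvd.mul_right hp2 _
    · have h1 : ∃ p ∈ PR y, (p : ℤ) ∣ eval (fun i => a₀ i + h i) F₁ := by
        by_contra hcon
        push Not at hcon
        exact hhV (by rw [hV, mem_filter]; exact ⟨hhH, hcon⟩)
      obtain ⟨p, hp, hpd⟩ := h1
      have hp' := mem_PR.1 hp
      have hp0 : (0:ℝ) < p := by exact_mod_cast hp'.1.pos
      refine ⟨p, hp'.1, ?_, ?_⟩
      · rw [hTpow, ← Real.log_le_iff_le_exp hp0]
        have h2 : Real.log p ≤ Real.log L := Real.log_le_log hp0 (hp'.2.trans hyL)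
        refine h2.trans ?_
        rw [le_div_iff₀ hlogL0, ← pow_two]
        exact hlogsq
      · rw [hFG, map_mul]
        apply Dvd.dvd.mul_right
        have hpW : (p:ℤ) ∣ W := by
          exact_mod_cast dvd_primorial' hp'.1 (Nat.le_floor hp'.2)
        apply dvd_eval_congr F₁ p w (fun i => a₀ i + h i) _ hpd
        intro i
        have h3 : w i - (a₀ i + h i) = a i - a₀ i := by
          rw [hh]
          ring
        rw [h3]
        exact hpW.trans (haW i)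

end Pool.Agent.H525.MV
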