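import Pool.Agent.H525.MV.Col

set_option autoImplicit false
set_option linter.unusedSectionVars false

/-! # The covering theorem for the values of a polynomial in several variables -/

namespace Pool.Agent.H525.MV

open Finset NumberField MvPolynomial Pool.Agent.H256R2.SC
open Pool.Agent.H525.NF (Box mem_Box mem_PR enum enum_mem enum_inj sum_enum)
open Pool.Agent.H474R2.PG (PR)

open scoped Classical

variable {ι : Type} [Fintype ι]

theorem cfi {α : Type} (s : Finset α) (p : α → Prop) (i₁ i₂ : DecidablePred p) :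
    @Finset.filter α p i₁ s = @Finset.filter α p i₂ s := by
  ext x
  rw [@Finset.mem_filter α p i₁ s, @Finset.mem_filter α p i₂ s]

/-- the zeros of `G` modulo `p`, as a finite set -/
theorem exists_zeros (G : MvPolynomial ι ℤ) (p : ℕ) (hp : p.Prime) :
    ∃ Z : Finset (ι → ZMod p), (∀ x, x ∈ Z ↔ eval x (red G p) = 0) ∧ Z.card = zc G p := by
  have : Fact p.Prime := ⟨hp⟩
  refine ⟨Finset.univ.filter (fun x => eval x (red G p) = 0), fun x => by simp, ?_⟩
  unfold zc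
  exact (Nat.subtype_card _ (fun x => by simp)).symm

/-- the common zeros of two translates -/
theorem common_zeros (hTR : S_TR) (hCOD : S_COD) (F : MvPolynomial ι ℤ) (hF : Irreducible F)
    (hF0 : 0 < F.totalDegree) : ∃ (C₀ L₁ : ℝ) (A₀ : ℕ), 1 ≤ C₀ ∧ 3 ≤ A₀ ∧ ∀ L : ℝ, L₁ ≤ L →
    ∀ h k : ι → ℤ, (∀ i, |(h i : ℝ)| ≤ L ^ 2) → (∀ i, |(k i : ℝ)| ≤ L ^ 2) →
    tr F h ≠ tr F k → ∀ p : ℕ, p.Prime → L ^ A₀ < p →
    Nat.card {x : ι → ZMod p // eval x (red (tr F h) p) = 0 ∧ eval x (red (tr F k) p) = 0} ≤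
      Ep C₀ (Fintype.card ι) p := by
  obtain ⟨ev, evr, trtr, -, trdeg, trdvd, CT, hCT, trco⟩ := hTR ι F
  set g := F.totalDegree with hg
  obtain ⟨C, m, hC, hcod⟩ := hCOD ι F hF hF0 g
  refine ⟨C, max 2 (C * CT ^ m), 3 * (g * m) + 3, hC, by omega, ?_⟩
  intro L hL h k hh hk hne p hp hpL
  have hL2 : 2 ≤ L := (le_max_left _ _).trans hL
  have hL3 : C * CT ^ m ≤ L := (le_max_right _ _).trans hL
  have hL0 : 0 < L := by linarith
  set v : ι → ℤ := fun i => k i - h i with hv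
  have hvk : tr (tr F v) h = tr F k := by
    rw [trtr]
    congr 1
    funext i
    rw [hv]
    ring
  have hvne : tr F v ≠ F := by
    intro h1
    rw [h1] at hvk
    exact hne hvk
  have hndvd : ¬ F ∣ tr F v := trdvd v hF0 hvne
  have hvH : ∀ i, |(v i : ℝ)| ≤ L ^ 3 := by
    intro i
    rw [hv]
    push_cast
    have h1 := abs_sub (k i : ℝ) (h i : ℝ)
    have h2 := hh i
    have h3 := hk i
    have h4 : 2 * L ^ 2 ≤ L ^ 3 := by nlinarith [sq_nonneg L]
    linarith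
  have hL31 : 1 ≤ L ^ 3 := one_le_pow₀ (by linarith)
  have hco := trco v (L ^ 3) hL31 hvH
  have hH : 1 ≤ CT * (L ^ 3) ^ g := by
    have : 1 ≤ (L ^ 3) ^ g := one_le_pow₀ hL31
    nlinarith
  have hpC : C * (CT * (L ^ 3) ^ g) ^ m < p := by
    refine lt_of_le_of_lt ?_ hpL
    calc C * (CT * (L ^ 3) ^ g) ^ m = (C * CT ^ m) * L ^ (3 * (g * m)) := by
          rw [mul_pow, ← pow_mul, ← pow_mul]
          ring
      _ ≤ L * L ^ (3 * (g * m)) := mul_le_mul_of_nonneg_right hL3 (by positivity)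
      _ = L ^ (3 * (g * m) + 1) := by rw [pow_succ]; ring
      _ ≤ L ^ (3 * (g * m) + 3) := pow_le_pow_right₀ (by linarith) (by omega)
  have h1 := hcod (tr F v) (le_of_eq (trdeg v)) hndvd (CT * (L ^ 3) ^ g) hH hco p hp hpC
  have hp0 : (0:ℝ) < p := by exact_mod_cast hp.pos
  have : Fact p.Prime := ⟨hp⟩
  have h2 : Nat.card {x : ι → ZMod p // eval x (red (tr F h) p) = 0 ∧
      eval x (red (tr F k) p) = 0} ≤
      Nat.card {x : ι → ZMod p // eval x (red F p) = 0 ∧ eval x (red (tr F v) p) = 0} := by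
    refine Nat.card_le_card_of_injective (fun x =>
      ⟨fun i => x.1 i + ((h i : ℤ) : ZMod p), ?_, ?_⟩) ?_
    · rw [← evr]
      exact x.2.1
    · rw [evr]
      have h3 := x.2.2
      rw [evr] at h3
      refine (congrArg (fun w => eval w (red F p)) ?_).trans h3
      funext i
      rw [hv]
      push_cast
      ring
    · intro x y hxy
      apply Subtype.ext
      funext i
      have h3 := congrFun (congrArg Subtype.val hxy) i
      exact add_right_cancel h3
  refine h2.trans ?_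
  unfold Ep
  apply Nat.le_floor
  rw [le_div_iff₀ hp0]
  linarith

/-- the points with a small value -/
theorem small_values (hTR : S_TR) (hSZ : S_SZ) (F : MvPolynomial ι ℤ) (hF0 : 0 < F.totalDegree)
    (H₀ : Finset (ι → ℤ)) (M : ι → ℤ) (T : ℕ) (V : ℝ) (hV : 1 ≤ V) :
    (((Box M T).filter (fun a => ∃ h ∈ H₀,
      |((eval (fun i => a i + h i) F : ℤ) : ℝ)| ≤ V)).card : ℝ) ≤
      H₀.card * (3 * V) * (F.totalDegree * (T:ℝ) ^ (Fintype.card ι - 1)) := by
  obtain ⟨ev, -, -, -, trdeg, -, -⟩ := hTR ι F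
  set B : ℤ := ⌊V⌋ with hB
  have hB0 : 0 ≤ B := Int.floor_nonneg.2 (by linarith)
  have hBV : (B : ℝ) ≤ V := Int.floor_le V
  have h1 : (Box M T).filter (fun a => ∃ h ∈ H₀,
      |((eval (fun i => a i + h i) F : ℤ) : ℝ)| ≤ V) ⊆
      (H₀ ×ˢ Finset.Icc (-B) B).biUnion
        (fun q => (Box M T).filter (fun a => eval a (tr F q.1 - C q.2) = 0)) := by
    intro a ha
    rw [mem_filter] at ha
    obtain ⟨ha1, h, hh, hv⟩ := ha
    rw [mem_biUnion]
    refine ⟨(h, eval (fun i => a i + h i) F), ?_, ?_⟩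
    · rw [mem_product, mem_Icc]
      refine ⟨hh, ?_⟩
      rw [abs_le] at hv
      constructor
      · have : -(eval (fun i => a i + h i) F) ≤ B := by
          rw [hB, Int.le_floor]
          push_cast
          linarith [hv.1]
        linarith
      · rw [hB, Int.le_floor]
        exact hv.2
    · rw [mem_filter]
      refine ⟨ha1, ?_⟩
      rw [map_sub, ev, eval_C, sub_self]
  have h2 : ∀ q ∈ H₀ ×ˢ Finset.Icc (-B) B,
      (((Box M T).filter (fun a => eval a (tr F q.1 - C q.2) = 0)).card : ℝ) ≤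
        F.totalDegree * (T:ℝ) ^ (Fintype.card ι - 1) := by
    intro q _
    have hne : tr F q.1 - C q.2 ≠ 0 := by
      intro h
      have h3 : tr F q.1 = C q.2 := sub_eq_zero.1 h
      have h4 := trdeg q.1
      rw [h3, totalDegree_C] at h4
      omega
    have h3 := (hSZ ι (tr F q.1 - C q.2)).2 hne M T
    have h4 : (tr F q.1 - C q.2).totalDegree ≤ F.totalDegree := by
      refine (totalDegree_sub _ _).trans ?_
      rw [totalDegree_C, trdeg]
      simp
    have h5 : ((Box M T).filter (fun a => eval a (tr F q.1 - C q.2) = 0)).card ≤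
        F.totalDegree * T ^ (Fintype.card ι - 1) :=
      h3.trans (Nat.mul_le_mul_right _ h4)
    exact_mod_cast h5
  have h3 : (((Box M T).filter (fun a => ∃ h ∈ H₀,
      |((eval (fun i => a i + h i) F : ℤ) : ℝ)| ≤ V)).card : ℝ) ≤
      ∑ q ∈ H₀ ×ˢ Finset.Icc (-B) B,
        (((Box M T).filter (fun a => eval a (tr F q.1 - C q.2) = 0)).card : ℝ) := by
    exact_mod_cast (Finset.card_le_card h1).trans Finset.card_biUnion_le
  refine h3.trans ((Finset.sum_le_sum h2).trans ?_)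
  rw [Finset.sum_const, nsmul_eq_mul, Finset.card_product, Int.card_Icc]
  apply mul_le_mul_of_nonneg_right _ (by positivity)
  push_cast
  apply mul_le_mul_of_nonneg_left _ (Nat.cast_nonneg _)
  have h6 : ((B + 1 - -B).toNat : ℝ) = 2 * (B:ℝ) + 1 := by
    have h7 : ((B + 1 - -B).toNat : ℤ) = 2 * B + 1 := by omega
    have h8 : (((B + 1 - -B).toNat : ℤ) : ℝ) = ((2 * B + 1 : ℤ) : ℝ) := by rw [h7]
    rw [Int.cast_natCast] at h8
    rw [h8]
    push_cast
    ring
  rw [h6]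
  linarith

/-- two inequalities for large `L` -/
theorem ev_ineq (C : ℝ) : ∃ L₁ : ℝ, ∀ L : ℝ, L₁ ≤ L → C * L ^ 2 ≤ Real.exp (L / 4) ∧
    C ≤ Real.exp (L / 4) := by
  have h1 : Filter.Tendsto (fun L : ℝ => (L / 4) ^ 2 / Real.exp (L / 4)) Filter.atTop
      (nhds 0) := by
    have := (Real.tendsto_pow_mul_exp_neg_atTop_nhds_zero 2).comp
      (Filter.tendsto_id.atTop_div_const (by norm_num : (0:ℝ) < 4))
    refine this.congr (fun L => ?_)
    simp only [Function.comp, id]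
    rw [Real.exp_neg]
    ring
  have h2 : ∀ᶠ L : ℝ in Filter.atTop, (L / 4) ^ 2 / Real.exp (L / 4) < 1 / (16 * (|C| + 1)) :=
    (tendsto_order.1 h1).2 _ (by positivity)
  obtain ⟨L₁, hL₁⟩ := Filter.eventually_atTop.1 h2
  refine ⟨max L₁ 1, fun L hL => ?_⟩
  have h3 := hL₁ L ((le_max_left _ _).trans hL)
  have hL1 : 1 ≤ L := (le_max_right _ _).trans hL
  have hC0 : 0 < |C| + 1 := by positivity
  rw [div_lt_div_iff₀ (Real.exp_pos _) (by positivity)] at h3
  have h4 : (|C| + 1) * L ^ 2 ≤ Real.exp (L / 4) := by nlinarith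
  have h5 : C ≤ |C| + 1 := by linarith [le_abs_self C]
  have h6 : 1 ≤ L ^ 2 := by nlinarith
  constructor
  · exact (mul_le_mul_of_nonneg_right h5 (by positivity)).trans h4
  · refine h5.trans (le_trans ?_ h4)
    nlinarith

theorem mv_cover (hTR : S_TR) (hCOD : S_COD) (hLW : S_LW) (hMER : S_MER) (hSZ : S_SZ)
    (hCNT : S_CNT) (F : MvPolynomial ι ℤ) (hF : Irreducible F) (hF0 : 0 < F.totalDegree)
    (F' : MvPolynomial ι ℤ) (hF' : 0 < F'.totalDegree) :
    ∃ c L₁ : ℝ, 0 < c ∧ ∀ L : ℝ, L₁ ≤ L →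
    ∀ (V H₀ : Finset (ι → ℤ)), (∀ h ∈ V, ∀ i, |(h i : ℝ)| ≤ L ^ 2) → (V.card : ℝ) ≤ c * L →
    (H₀.card : ℝ) ≤ L ^ 2 →
    ∀ (W : ℕ) (a₀ : ι → ℤ), 1 ≤ W → (W : ℝ) ^ Fintype.card ι ≤ Real.exp (L / 5) →
    (∀ p : ℕ, p.Prime → L ^ 2 < p → ¬ p ∣ W) →
    ∀ (M : ι → ℤ) (T : ℕ), Real.exp L ≤ T →
    ∃ a ∈ Box M T, (∀ i, (W : ℤ) ∣ a i - a₀ i) ∧
      (∀ h ∈ H₀, Real.exp (L / 4) < |((eval (fun i => a i + h i) F' : ℤ) : ℝ)|) ∧
      ∀ h ∈ V, ∃ p : ℕ, p.Prime ∧ Real.log p ≤ L / (1000 * Real.log L) ∧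
        (p : ℤ) ∣ eval (fun i => a i + h i) F := by
  have hn := card_pos_of hF0
  obtain ⟨C₀, L₂, A₀, hC₀, hA₀, hcommon⟩ := common_zeros hTR hCOD F hF hF0
  obtain ⟨A, C, L₃, hA, hC, hweights⟩ := weight_sums hLW hMER hSZ F hF hF0 C₀ hC₀ A₀ hA₀
  obtain ⟨c₀, hc₀, L₀, hcov⟩ := Pool.Agent.H525.AC.abscov2 A C hA hC
  set n : ℕ := Fintype.card ι with hndef
  obtain ⟨L₄, hL₄⟩ := ev_ineq (max (6 * F'.totalDegree) (2 * n * 2 ^ n))
  refine ⟨min c₀ 1, max (max L₀ 100) (max L₂ (max L₃ L₄)), lt_min hc₀ one_pos, ?_⟩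
  intro L hL V H₀ hV hVc hH₀ W a₀ hW1 hWn hWp M T hT
  have hLL₀ : L₀ ≤ L := ((le_max_left _ _).trans (le_max_left _ _)).trans hL
  have hL100 : 100 ≤ L := ((le_max_right _ _).trans (le_max_left _ _)).trans hL
  have hLL₂ : L₂ ≤ L := ((le_max_left _ _).trans (le_max_right _ _)).trans hL
  have hLL₃ : L₃ ≤ L :=
    (((le_max_left _ _).trans (le_max_right _ _)).trans (le_max_right _ _)).trans hL
  have hLL₄ : L₄ ≤ L :=
    (((le_max_right _ _).trans (le_max_right _ _)).trans (le_max_right _ _)).trans hL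
  obtain ⟨hev1, hev2⟩ := hL₄ L hLL₄
  have hL0 : 0 < L := by linarith
  obtain ⟨z, hz1, hz2, hz0, hz3, hmain⟩ := hcov L hLL₀
  have hlogL : 1 ≤ Real.log L := by
    rw [Real.le_log_iff_exp_le hL0]
    have := Real.exp_one_lt_d9
    linarith
  have hlogz : Real.log z ≤ L := by
    refine hz2.trans ?_
    rw [div_le_iff₀ (by positivity)]
    nlinarith only [hlogL, hL0]
  -- the colours
  set κ : Type := ↥(V.image (fun h => tr F h)) with hκ
  have hκc : Fintype.card κ ≤ V.card :=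
    (Fintype.card_coe _).trans_le Finset.card_image_le
  have hrep : ∀ k : κ, ∃ h ∈ V, tr F h = k.1 := fun k => Finset.mem_image.1 k.2
  choose rep hrepV hrep2 using hrep
  have hκL : ((Fintype.card κ : ℕ) : ℝ) ≤ c₀ * L := by
    have h1 : ((Fintype.card κ : ℕ) : ℝ) ≤ V.card := by exact_mod_cast hκc
    have h2 : min c₀ 1 * L ≤ c₀ * L := mul_le_mul_of_nonneg_right (min_le_left _ _) hL0.le
    linarith
  have hκL1 : ((Fintype.card κ : ℕ) : ℝ) ≤ L := by
    have h1 : ((Fintype.card κ : ℕ) : ℝ) ≤ V.card := by exact_mod_cast hκc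
    have h2 : min c₀ 1 * L ≤ 1 * L := mul_le_mul_of_nonneg_right (min_le_right _ _) hL0.le
    linarith
  set u : ℕ := Fintype.card κ with hu
  set P : Finset ℕ := PP F A₀ L z with hP
  obtain ⟨hw1, hw2, hw3, hw4⟩ := hweights L hLL₃ z hz3 hlogz u hκL1
  rw [← hP] at hw1 hw2 hw3 hw4
  have hmemP : ∀ p ∈ P, p.Prime ∧ (p:ℝ) ≤ z ∧ L ^ A₀ < (p:ℝ) ∧
      3 / 4 * (p:ℝ) ^ (Fintype.card ι - 1) ≤ zc F p := fun p hp => mem_PP.1 hp
  have hpwA : L ^ 2 ≤ L ^ A₀ := pow_le_pow_right₀ (by linarith) (by omega)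
  obtain ⟨-, -, -, trzc, -, -, -⟩ := hTR ι F
  -- the exclusive sets
  have hBex : ∀ p : ℕ, ∃ B : κ → Finset (ι → ZMod p), p ∈ P →
      (∀ k, ∀ x ∈ B k, eval x (red (k.1 : MvPolynomial ι ℤ) p) = 0) ∧
      (∀ k l, k ≠ l → Disjoint (B k) (B l)) ∧ ∀ k, (B k).card = mp F C₀ u p := by
    intro p
    by_cases hp : p ∈ P
    · obtain ⟨hpp, hpz, hpA, hpz2⟩ := hmemP p hp
      have hZ : ∀ k : κ, ∃ Z : Finset (ι → ZMod p),
          (∀ x, x ∈ Z ↔ eval x (red (k.1 : MvPolynomial ι ℤ) p) = 0) ∧ Z.card = zc k.1 p :=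
        fun k => exists_zeros k.1 p hpp
      choose Z hZ1 hZ2 using hZ
      obtain ⟨B, hB1, hB2, hB3⟩ := excl Z (zc F p) (Ep C₀ (Fintype.card ι) p) (mp F C₀ u p)
        (fun k => by
          rw [hZ2 k, ← hrep2 k, trzc (rep k) p hpp])
        (fun k l hkl => by
          have h1 : tr F (rep k) ≠ tr F (rep l) := by
            rw [hrep2, hrep2]
            exact fun h => hkl (Subtype.ext h)
          have h2 := hcommon L hLL₂ (rep k) (rep l) (hV _ (hrepV k)) (hV _ (hrepV l)) h1 p hpp hpA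
          refine le_trans (le_of_eq ?_) h2
          refine Nat.card_congr (Equiv.subtypeEquivRight (fun x => ?_))
          rw [hZ1, hZ1, hrep2, hrep2])
        (hw1 p hp).1
      exact ⟨B, fun _ => ⟨fun k x hx => (hZ1 k x).1 (hB1 k hx), hB2, hB3⟩⟩
    · exact ⟨fun _ => ∅, fun h => absurd h hp⟩
  choose B hB using hBex
  have hB1 : ∀ p ∈ P, ∀ k, ∀ x ∈ B p k, eval x (red (k.1 : MvPolynomial ι ℤ) p) = 0 :=
    fun p hp => (hB p hp).1
  have hB2 : ∀ p ∈ P, ∀ k l, k ≠ l → Disjoint (B p k) (B p l) := fun p hp => (hB p hp).2.1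
  have hB3 : ∀ p ∈ P, ∀ k, (B p k).card = mp F C₀ u p := fun p hp => (hB p hp).2.2
  -- the weights
  set q : Fin P.card → ℝ := fun i => ((enum P i : ℕ) : ℝ) with hq
  set g : Fin P.card → ℝ := fun i =>
    (mp F C₀ u (enum P i) : ℝ) / ((enum P i : ℕ) : ℝ) ^ n with hg
  have hsum : ∀ (w : ℝ) (φ : ℕ → ℝ),
      ∑ i with q i ≤ w, φ (enum P i) = ∑ p ∈ P.filter (fun p : ℕ => (p:ℝ) ≤ w), φ p := by
    intro w φ
    rw [Finset.sum_filter, Finset.sum_filter]
    exact sum_enum P (fun p => if (p : ℝ) ≤ w then φ p else 0)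
  have hMp : ∀ p ∈ P, p.Prime ∧ ¬ p ∣ W := fun p hp =>
    ⟨(hmemP p hp).1, hWp p (hmemP p hp).1 (lt_of_le_of_lt hpwA (hmemP p hp).2.2.1)⟩
  have hzc : ∀ p ∈ P, mp F C₀ u p ≤ p ^ n := by
    intro p hp
    obtain ⟨hpp, -, hpA, -⟩ := hmemP p hp
    have h1 : (mp F C₀ u p : ℝ) / (p:ℝ) ^ n ≤ 2 / L ^ 2 := (hw1 p hp).2.2
    have h2 : (2:ℝ) / L ^ 2 ≤ 1 := by
      rw [div_le_one (by positivity)]
      nlinarith
    have hp0 : (0:ℝ) < p := by exact_mod_cast hpp.pos
    have h3 := h1.trans h2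
    rw [div_le_one (by positivity)] at h3
    exact_mod_cast h3
  -- the points
  have hWR1 : (1:ℝ) ≤ W := by exact_mod_cast hW1
  have hW0 : (0:ℝ) < W := by linarith
  have hT0 : (0:ℝ) < T := lt_of_lt_of_le (Real.exp_pos _) hT
  set 𝒰 := (Box M T).filter (fun a => ∀ i, (W : ℤ) ∣ a i - a₀ i) with h𝒰
  set 𝒜 := 𝒰.filter (fun a => ∀ h ∈ H₀,
    Real.exp (L / 4) < |((eval (fun i => a i + h i) F' : ℤ) : ℝ)|) with h𝒜
  set E₂ : ℝ := L ^ 2 * (3 * Real.exp (L / 4)) * (F'.totalDegree * (T:ℝ) ^ (n - 1)) with hE₂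
  have hbad : ((𝒰 \ 𝒜).card : ℝ) ≤ E₂ := by
    have h1 : 𝒰 \ 𝒜 ⊆ (Box M T).filter (fun a => ∃ h ∈ H₀,
      |((eval (fun i => a i + h i) F' : ℤ) : ℝ)| ≤ Real.exp (L / 4)) := by
      intro a ha
      rw [mem_sdiff] at ha
      rw [mem_filter]
      refine ⟨(mem_filter.1 ha.1).1, ?_⟩
      by_contra hcon
      push Not at hcon
      apply ha.2
      rw [h𝒜, mem_filter]
      exact ⟨ha.1, hcon⟩
    have h2 : ((𝒰 \ 𝒜).card : ℝ) ≤ (((Box M T).filter (fun a => ∃ h ∈ H₀,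
      |((eval (fun i => a i + h i) F' : ℤ) : ℝ)| ≤ Real.exp (L / 4))).card : ℝ) := by
      exact_mod_cast Finset.card_le_card h1
    refine h2.trans ((small_values hTR hSZ F' hF' H₀ M T (Real.exp (L / 4))
      (Real.one_le_exp (by positivity))).trans ?_)
    rw [hE₂]
    apply mul_le_mul_of_nonneg_right _ (by positivity)
    exact mul_le_mul_of_nonneg_right hH₀ (by positivity)
  set X : ℝ := (T:ℝ) / W with hX
  have hWle : (W:ℝ) ≤ Real.exp (L / 5) := by
    refine le_trans ?_ hWn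
    exact le_self_pow₀ hWR1 hn.ne'
  have hXL : Real.exp (4 / 5 * L) ≤ X := by
    rw [hX, le_div_iff₀ hW0]
    calc Real.exp (4 / 5 * L) * W ≤ Real.exp (4 / 5 * L) * Real.exp (L / 5) :=
          mul_le_mul_of_nonneg_left hWle (Real.exp_pos _).le
      _ = Real.exp L := by rw [← Real.exp_add]; congr 1; ring
      _ ≤ T := hT
  have hX0 : 0 < X := lt_of_lt_of_le (Real.exp_pos _) hXL
  set N : ℝ := X ^ n with hN
  set Q : ℝ := Real.exp (L / 10) with hQ
  set Err : ℝ := n * Q * (2 * X) ^ (n - 1) + E₂ with hErr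
  have hN0 : 0 < N := by positivity
  have hErr0 : 0 ≤ Err := by
    rw [hErr, hE₂]
    positivity
  obtain ⟨n', hn'⟩ : ∃ n', n = n' + 1 := ⟨n - 1, by omega⟩
  have hErrN : Err * Real.exp (L / 4) ≤ N := by
    have h1 : (n:ℝ) * Q * (2 * X) ^ (n - 1) * Real.exp (L / 4) ≤ N / 2 := by
      have hXn : X ^ n = X ^ n' * X := by rw [hn', pow_succ]
      have hn1 : n - 1 = n' := by omega
      rw [hN, hXn, hn1, mul_pow]
      have h2 : (n:ℝ) * Q * 2 ^ n' * Real.exp (L / 4) ≤ X / 2 := by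
        have h3 : 2 * (n:ℝ) * 2 ^ n ≤ Real.exp (L / 4) := (le_max_right _ _).trans hev2
        have h4 : (2:ℝ) ^ n' ≤ 2 ^ n := pow_le_pow_right₀ (by norm_num) (by omega)
        have h5 : (n:ℝ) * 2 ^ n' ≤ Real.exp (L / 4) / 2 := by
          have : (n:ℝ) * 2 ^ n' ≤ n * 2 ^ n := mul_le_mul_of_nonneg_left h4 (Nat.cast_nonneg _)
          linarith
        calc (n:ℝ) * Q * 2 ^ n' * Real.exp (L / 4)
            = (n:ℝ) * 2 ^ n' * (Q * Real.exp (L / 4)) := by ring
          _ ≤ Real.exp (L / 4) / 2 * (Q * Real.exp (L / 4)) :=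
              mul_le_mul_of_nonneg_right h5 (by positivity)
          _ = Real.exp (3 / 5 * L) / 2 := by
              rw [hQ]
              have : Real.exp (3 / 5 * L) =
                  Real.exp (L / 4) * (Real.exp (L / 10) * Real.exp (L / 4)) := by
                rw [← Real.exp_add, ← Real.exp_add]; congr 1; ring
              rw [this]; ring
          _ ≤ X / 2 := by
              have : Real.exp (3 / 5 * L) ≤ Real.exp (4 / 5 * L) :=
                Real.exp_le_exp.2 (by linarith)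
              linarith
      calc (n:ℝ) * Q * (2 ^ n' * X ^ n') * Real.exp (L / 4)
          = ((n:ℝ) * Q * 2 ^ n' * Real.exp (L / 4)) * X ^ n' := by ring
        _ ≤ X / 2 * X ^ n' := mul_le_mul_of_nonneg_right h2 (by positivity)
        _ = X ^ n' * X / 2 := by ring
    have h2 : E₂ * Real.exp (L / 4) ≤ N / 2 := by
      have hTX : (T:ℝ) = X * W := by rw [hX]; field_simp
      have h3 : 6 * (F'.totalDegree : ℝ) * L ^ 2 ≤ Real.exp (L / 4) := by
        refine le_trans ?_ hev1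
        exact mul_le_mul_of_nonneg_right (le_max_left _ _) (by positivity)
      have h4 : E₂ * Real.exp (L / 4) * (W:ℝ) ^ n ≤ (T:ℝ) ^ n / 2 := by
        rw [hE₂]
        calc L ^ 2 * (3 * Real.exp (L / 4)) * (F'.totalDegree * (T:ℝ) ^ (n - 1)) *
              Real.exp (L / 4) * (W:ℝ) ^ n
            = (6 * (F'.totalDegree : ℝ) * L ^ 2) * (Real.exp (L / 4) * Real.exp (L / 4) *
                (W:ℝ) ^ n) * (T:ℝ) ^ (n - 1) / 2 := by ring
          _ ≤ Real.exp (L / 4) * (Real.exp (L / 4) * Real.exp (L / 4) *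
                Real.exp (L / 5)) * (T:ℝ) ^ (n - 1) / 2 := by
              apply div_le_div_of_nonneg_right _ (by norm_num)
              apply mul_le_mul_of_nonneg_right _ (by positivity)
              apply mul_le_mul h3 _ (by positivity) (Real.exp_pos _).le
              exact mul_le_mul_of_nonneg_left hWn (by positivity)
          _ = Real.exp (19 / 20 * L) * (T:ℝ) ^ (n - 1) / 2 := by
              have : Real.exp (19 / 20 * L) = Real.exp (L / 4) * (Real.exp (L / 4) *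
                  Real.exp (L / 4) * Real.exp (L / 5)) := by
                rw [← Real.exp_add, ← Real.exp_add, ← Real.exp_add]; congr 1; ring
              rw [this]
          _ ≤ T * (T:ℝ) ^ (n - 1) / 2 := by
              apply div_le_div_of_nonneg_right _ (by norm_num)
              apply mul_le_mul_of_nonneg_right _ (by positivity)
              refine le_trans (Real.exp_le_exp.2 ?_) hT
              linarith
          _ = (T:ℝ) ^ n / 2 := by
              rw [hn', Nat.add_sub_cancel, pow_succ]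
              ring
      have h5 : N = (T:ℝ) ^ n / (W:ℝ) ^ n := by rw [hN, hX, div_pow]
      rw [h5, div_div, mul_comm ((W:ℝ) ^ n) 2, ← div_div, le_div_iff₀ (by positivity)]
      exact h4
    rw [hErr, add_mul]
    linarith
  have hQX : Q ≤ (T:ℝ) / W := by
    refine le_trans (Real.exp_le_exp.2 ?_) hXL
    linarith
  have hPcard : ((P.card : ℕ) : ℝ) + 1 ≤ z ^ 2 := by
    have h1 : P.card ≤ ⌊z⌋₊ := by
      rw [hP]
      unfold PP PR
      refine (Finset.card_filter_le _ _).trans ((Finset.card_filter_le _ _).trans ?_)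
      rw [Nat.card_Icc]
      omega
    have h2 : ((P.card : ℕ) : ℝ) ≤ z := (Nat.cast_le.2 h1).trans (Nat.floor_le hz0.le)
    have h3 : 2 ≤ z := by
      refine le_trans ?_ hz3
      nlinarith
    nlinarith
  obtain ⟨a, ha, hcol⟩ := hmain P.card q g
    (fun i => lt_of_le_of_lt hpwA (hmemP _ (enum_mem P i)).2.2.1)
    (fun i => (hmemP _ (enum_mem P i)).2.1)
    (fun i => (hw1 _ (enum_mem P i)).2.1)
    (fun i => (hw1 _ (enum_mem P i)).2.2)
    (fun w hwa hwb => by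
      rw [hsum w (fun p => (mp F C₀ u p : ℝ) / (p:ℝ) ^ n * Real.log p)]
      exact hw2 w hwa hwb)
    (fun w hwa hwb => by
      rw [hsum w (fun p => (mp F C₀ u p : ℝ) / (p:ℝ) ^ n)]
      exact hw3 w hwa hwb)
    (by
      rw [sum_enum P (fun p => (mp F C₀ u p : ℝ) / (p:ℝ) ^ n)]
      exact hw4)
    hPcard κ hκL (ι → ℤ) 𝒜
    (fun a i => colB (B (enum P i)) (fun j => ((a j : ℤ) : ZMod (enum P i)))) N Err hN0 hErr0
    hErrN
    (by
      intro Dc hDc
      have hqq : qq q Dc = ∏ i with Dc i ≠ none, ((enum P i : ℕ) : ℝ) := by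
        unfold qq
        rw [prod_nu1]
        rfl
      have hnu : nu g Dc = ∏ i with Dc i ≠ none,
          (mp F C₀ u (enum P i) : ℝ) / ((enum P i : ℕ) : ℝ) ^ n := by
        unfold nu
        rw [prod_nu1]
        rfl
      rw [hnu]
      have hev := event_mv hCNT W hW1 a₀ P hMp B hB2 (mp F C₀ u) hB3 hzc M T 𝒜
        (Finset.filter_subset _ _) E₂ hbad hn Dc Q (by rw [← hqq]; exact hDc) hQX
      refine le_trans (le_of_eq ?_) hev
      congr 3
      exact congrArg Finset.card (cfi _ _ _ _))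
  rw [h𝒜, mem_filter, h𝒰, mem_filter] at ha
  refine ⟨a, ha.1.1, ha.1.2, ha.2, ?_⟩
  intro h hh
  obtain ⟨i, hi⟩ := hcol ⟨tr F h, Finset.mem_image_of_mem _ hh⟩
  rw [colB_eq (hB2 _ (enum_mem P i))] at hi
  have h1 := hB1 _ (enum_mem P i) _ _ hi
  obtain ⟨ev, -⟩ := hTR ι F
  refine ⟨enum P i, (hmemP _ (enum_mem P i)).1, ?_, ?_⟩
  · have hp0 : (0:ℝ) < (enum P i : ℕ) := by
      have := (hmemP _ (enum_mem P i)).1.pos
      exact_mod_cast this
    exact (Real.log_le_log hp0 (hmemP _ (enum_mem P i)).2.1).trans hz2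
  · rw [← ev, ← ZMod.intCast_zmod_eq_zero_iff_dvd]
    have h5 := MvPolynomial.map_eval (Int.castRingHom (ZMod (enum P i))) a (tr F h)
    exact h5.trans h1

end Pool.Agent.H525.MV
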