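import Pool.Agent.H525.MV.Stm

set_option autoImplicit false
set_option linter.unusedSectionVars false

/-! # The sieving primes and their weights -/

namespace Pool.Agent.H525.MV

open Finset NumberField MvPolynomial
open Pool.Agent.H525.NF (Box mem_PR)
open Pool.Agent.H474R2.PG (PR)

open scoped Classical

variable {ι : Type} [Fintype ι]

/-- a polynomial which is not constant has variables -/
theorem card_pos_of {F : MvPolynomial ι ℤ} (h : 0 < F.totalDegree) : 0 < Fintype.card ι := by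
  rw [Fintype.card_pos_iff]
  by_contra hne
  rw [not_nonempty_iff] at hne
  rw [MvPolynomial.eq_C_of_isEmpty F, totalDegree_C] at h
  exact lt_irrefl _ h

theorem pthree (p : ℕ) : (p:ℝ) ^ (3/2:ℝ) = (p:ℝ) * Real.sqrt p := by
  rcases Nat.eq_zero_or_pos p with h0 | h0
  · subst h0
    rw [Nat.cast_zero, Real.zero_rpow (by norm_num), zero_mul]
  · have h1 : (0:ℝ) < p := by exact_mod_cast h0
    rw [Real.sqrt_eq_rpow, show (3/2:ℝ) = 1 + 1/2 by norm_num, Real.rpow_add h1, Real.rpow_one]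

/-- the sum of `1 / (p * sqrt p)` is bounded -/
theorem sum_three_half : ∃ S : ℝ, 0 ≤ S ∧ ∀ s : Finset ℕ,
    ∑ p ∈ s, 1 / ((p:ℝ) * Real.sqrt p) ≤ S := by
  have h : Summable (fun n : ℕ => 1 / (n:ℝ) ^ (3/2 : ℝ)) :=
    Real.summable_one_div_nat_rpow.2 (by norm_num)
  have h0 : ∀ n : ℕ, 0 ≤ 1 / (n:ℝ) ^ (3/2 : ℝ) := fun n => by positivity
  refine ⟨∑' n : ℕ, 1 / (n:ℝ) ^ (3/2 : ℝ), tsum_nonneg h0, fun s => ?_⟩
  have h2 := h.sum_le_tsum s (fun n _ => h0 n)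
  refine le_trans (le_of_eq ?_) h2
  apply Finset.sum_congr rfl
  intro p _
  rw [pthree]

/-- Mertens -/
theorem sum_log_le : ∃ A : ℝ, 0 ≤ A ∧ ∀ w : ℝ, 3 ≤ w →
    ∑ p ∈ PR w, Real.log p / p ≤ A * Real.log w := by
  obtain ⟨C, hC⟩ := Pool.Agent.Helper256.KM.mertens_log
  have hC0 : 0 ≤ C := (abs_nonneg _).trans (hC 1 le_rfl)
  refine ⟨1 + C, by linarith, fun w hw => ?_⟩
  have h0 : 1 ≤ ⌊w⌋₊ := Nat.le_floor (by push_cast; linarith)
  have h1 := (abs_le.1 (hC ⌊w⌋₊ h0)).2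
  have h2 : Real.log (⌊w⌋₊ : ℝ) ≤ Real.log w :=
    Real.log_le_log (by exact_mod_cast h0) (Nat.floor_le (by linarith))
  have h3 : 1 ≤ Real.log w := by
    rw [Real.le_log_iff_exp_le (by linarith)]
    have := Real.exp_one_lt_d9
    linarith
  unfold PR
  have h4 : C ≤ C * Real.log w := le_mul_of_one_le_right hC0 h3
  linarith

/-- the bound of the size of an intersection -/
noncomputable def Ep (C₀ : ℝ) (n p : ℕ) : ℕ := ⌊C₀ * (p:ℝ) ^ (n - 1) / p⌋₊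

/-- the number of the exclusive zeros -/
noncomputable def mp (F : MvPolynomial ι ℤ) (C₀ : ℝ) (u p : ℕ) : ℕ :=
  zc F p - u * Ep C₀ (Fintype.card ι) p

/-- the sieving primes -/
noncomputable def PP (F : MvPolynomial ι ℤ) (A₀ : ℕ) (L z : ℝ) : Finset ℕ :=
  (PR z).filter (fun p => L ^ A₀ < (p:ℝ) ∧ 3 / 4 * (p:ℝ) ^ (Fintype.card ι - 1) ≤ zc F p)

theorem mp_facts (hSZ : S_SZ) (F : MvPolynomial ι ℤ) (hF : Irreducible F)
    (hF0 : 0 < F.totalDegree) (C₀ : ℝ) (hC₀ : 1 ≤ C₀) (L : ℝ) (hL : 4 * C₀ ≤ L)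
    (hL2 : (F.totalDegree : ℝ) ≤ L) (u : ℕ) (hu : (u : ℝ) ≤ L) (p : ℕ) (hp : p.Prime)
    (hpL : L ^ 3 < (p:ℝ)) (hz : 3 / 4 * (p:ℝ) ^ (Fintype.card ι - 1) ≤ zc F p) :
    mp F C₀ u p + u * Ep C₀ (Fintype.card ι) p ≤ zc F p ∧
    1 / (2 * (p:ℝ)) ≤ (mp F C₀ u p : ℝ) / (p:ℝ) ^ Fintype.card ι ∧
    (mp F C₀ u p : ℝ) / (p:ℝ) ^ Fintype.card ι ≤ F.totalDegree / p ∧
    (mp F C₀ u p : ℝ) / (p:ℝ) ^ Fintype.card ι ≤ 2 / L ^ 2 ∧
    (zc F p : ℝ) / (p:ℝ) ^ Fintype.card ι - C₀ * (1 / ((p:ℝ) * Real.sqrt p)) ≤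
      (mp F C₀ u p : ℝ) / (p:ℝ) ^ Fintype.card ι ∧
    (mp F C₀ u p : ℝ) / (p:ℝ) ^ Fintype.card ι ≤ (zc F p : ℝ) / (p:ℝ) ^ Fintype.card ι := by
  have hn := card_pos_of hF0
  obtain ⟨n, hn'⟩ : ∃ n, Fintype.card ι = n + 1 := ⟨Fintype.card ι - 1, by omega⟩
  rw [hn'] at hz ⊢
  rw [Nat.add_sub_cancel] at hz
  have hzup : (zc F p : ℝ) ≤ F.totalDegree * (p:ℝ) ^ n := by
    have h1 := (hSZ ι F).1 hF hF0 p hp
    rw [hn', Nat.add_sub_cancel] at h1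
    exact_mod_cast h1
  have hL4 : 4 ≤ L := by linarith
  have hp0 : (0:ℝ) < p := by exact_mod_cast hp.pos
  have hpn : (0:ℝ) < (p:ℝ) ^ n := by positivity
  have hL3 : L ^ 3 = L * L ^ 2 := by ring
  have hL0 : 0 < L := by linarith
  have hL16 : 16 ≤ L ^ 2 := by nlinarith
  have hpL2 : L ^ 2 ≤ p := by nlinarith
  -- u * E
  have hE : (Ep C₀ (n + 1) p : ℝ) ≤ C₀ * (p:ℝ) ^ n / p := by
    unfold Ep
    rw [Nat.add_sub_cancel]
    exact Nat.floor_le (by positivity)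
  have huE : ((u * Ep C₀ (n + 1) p : ℕ) : ℝ) ≤ L * (C₀ * (p:ℝ) ^ n / p) := by
    push_cast
    exact mul_le_mul hu hE (Nat.cast_nonneg _) hL0.le
  have hLC : L * C₀ ≤ p / 4 := by nlinarith
  have huE2 : ((u * Ep C₀ (n + 1) p : ℕ) : ℝ) ≤ (p:ℝ) ^ n / 4 := by
    refine huE.trans ?_
    have e : L * (C₀ * (p:ℝ) ^ n / p) = (L * C₀) * ((p:ℝ) ^ n / p) := by ring
    rw [e]
    calc (L * C₀) * ((p:ℝ) ^ n / p) ≤ (p / 4) * ((p:ℝ) ^ n / p) :=
          mul_le_mul_of_nonneg_right hLC (by positivity)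
      _ = (p:ℝ) ^ n / 4 := by field_simp
  have hle : u * Ep C₀ (n + 1) p ≤ zc F p := by
    have : ((u * Ep C₀ (n + 1) p : ℕ) : ℝ) ≤ (zc F p : ℝ) := by linarith
    exact_mod_cast this
  have hmp : mp F C₀ u p = zc F p - u * Ep C₀ (n + 1) p := by
    unfold mp
    rw [hn']
  have hmpR : (mp F C₀ u p : ℝ) = zc F p - ((u * Ep C₀ (n + 1) p : ℕ) : ℝ) := by
    rw [hmp, Nat.cast_sub hle]
  have hmple : (mp F C₀ u p : ℝ) ≤ zc F p := by
    rw [hmpR]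
    have := Nat.cast_nonneg (α := ℝ) (u * Ep C₀ (n + 1) p)
    linarith
  have hpp : (p:ℝ) ^ (n + 1) = (p:ℝ) ^ n * p := pow_succ _ _
  have hup : (mp F C₀ u p : ℝ) / (p:ℝ) ^ (n + 1) ≤ F.totalDegree / p := by
    rw [hpp, div_le_div_iff₀ (by positivity) hp0]
    have := hmple.trans hzup
    nlinarith
  refine ⟨by rw [hmp]; omega, ?_, hup, ?_, ?_, ?_⟩
  · rw [hpp, div_le_div_iff₀ (by positivity) (by positivity)]
    have : (p:ℝ) ^ n / 2 ≤ mp F C₀ u p := by rw [hmpR]; linarith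
    nlinarith
  · refine hup.trans ?_
    rw [div_le_div_iff₀ hp0 (by positivity)]
    nlinarith
  · rw [hmpR, sub_div]
    have h1 : ((u * Ep C₀ (n + 1) p : ℕ) : ℝ) / (p:ℝ) ^ (n + 1) ≤
        C₀ * (1 / ((p:ℝ) * Real.sqrt p)) := by
      have hs : L ≤ Real.sqrt p := Real.le_sqrt_of_sq_le hpL2
      have hs0 : 0 < Real.sqrt p := by linarith
      have hss : Real.sqrt p * Real.sqrt p = p := Real.mul_self_sqrt hp0.le
      calc ((u * Ep C₀ (n + 1) p : ℕ) : ℝ) / (p:ℝ) ^ (n + 1)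
          ≤ L * (C₀ * (p:ℝ) ^ n / p) / (p:ℝ) ^ (n + 1) :=
            div_le_div_of_nonneg_right huE (by positivity)
        _ = L * (C₀ / (p * p)) := by rw [hpp]; field_simp
        _ ≤ Real.sqrt p * (C₀ / (p * p)) := mul_le_mul_of_nonneg_right hs (by positivity)
        _ = C₀ * (1 / ((p:ℝ) * Real.sqrt p)) := by
            have e : (p:ℝ) * p = (p:ℝ) * (Real.sqrt p * Real.sqrt p) := by rw [hss]
            rw [e]
            field_simp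
    linarith
  · exact div_le_div_of_nonneg_right hmple (by positivity)

/-- the primes with few zeros -/
theorem bad_sum (hLW : S_LW) (F : MvPolynomial ι ℤ) (hF : Irreducible F)
    (hF0 : 0 < F.totalDegree) : ∃ C : ℝ, 0 ≤ C ∧ ∀ s : Finset ℕ,
    (∀ p ∈ s, p.Prime ∧ (zc F p : ℝ) < 3 / 4 * (p:ℝ) ^ (Fintype.card ι - 1)) →
    ∑ p ∈ s, (zc F p : ℝ) / (p:ℝ) ^ Fintype.card ι ≤ C := by
  obtain ⟨K, _, _, C, hC0, hC⟩ := hLW ι F hF hF0
  obtain ⟨S, hS0, hS⟩ := sum_three_half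
  have hn := card_pos_of hF0
  obtain ⟨n, hn'⟩ : ∃ n, Fintype.card ι = n + 1 := ⟨Fintype.card ι - 1, by omega⟩
  rw [hn'] at hC ⊢
  rw [Nat.add_sub_cancel] at hC ⊢
  refine ⟨(3 * C) * S, by positivity, fun s hs => ?_⟩
  have h1 : ∀ p ∈ s, (zc F p : ℝ) / (p:ℝ) ^ (n + 1) ≤ (3 * C) * (1 / ((p:ℝ) * Real.sqrt p)) := by
    intro p hps
    obtain ⟨hp, hz⟩ := hs p hps
    have hp0 : (0:ℝ) < p := by exact_mod_cast hp.pos
    have hpn : (0:ℝ) < (p:ℝ) ^ n := by positivity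
    have hs0 : 0 < Real.sqrt p := Real.sqrt_pos.2 hp0
    have hss : Real.sqrt p * Real.sqrt p = p := Real.mul_self_sqrt hp0.le
    have h2 := hC p hp
    set ν : ℕ := Nat.card (𝓞 K →+* ZMod p) with hν
    have key : (zc F p : ℝ) * Real.sqrt p ≤ 3 * C * (p:ℝ) ^ n := by
      rcases Nat.eq_zero_or_pos ν with h0 | h0
      · rw [h0, Nat.cast_zero, zero_mul, sub_zero, abs_of_nonneg (Nat.cast_nonneg _)] at h2
        have : 0 ≤ C * (p:ℝ) ^ n := by positivity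
        linarith
      · have h3 : (1:ℝ) ≤ ν := by exact_mod_cast h0
        have h4 : (p:ℝ) ^ n / 4 ≤ |(zc F p : ℝ) - ν * (p:ℝ) ^ n| := by
          rw [abs_sub_comm]
          refine le_trans ?_ (le_abs_self _)
          nlinarith
        have h5 : (p:ℝ) ^ n / 4 * Real.sqrt p ≤ C * (p:ℝ) ^ n :=
          (mul_le_mul_of_nonneg_right h4 hs0.le).trans h2
        nlinarith
    rw [pow_succ, mul_one_div, div_le_div_iff₀ (by positivity) (by positivity)]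
    calc (zc F p : ℝ) * ((p:ℝ) * Real.sqrt p) = (zc F p : ℝ) * Real.sqrt p * p := by ring
      _ ≤ 3 * C * (p:ℝ) ^ n * p := mul_le_mul_of_nonneg_right key hp0.le
      _ = 3 * C * ((p:ℝ) ^ n * p) := by ring
  calc ∑ p ∈ s, (zc F p : ℝ) / (p:ℝ) ^ (n + 1)
      ≤ ∑ p ∈ s, (3 * C) * (1 / ((p:ℝ) * Real.sqrt p)) := Finset.sum_le_sum h1
    _ = (3 * C) * ∑ p ∈ s, 1 / ((p:ℝ) * Real.sqrt p) := by rw [Finset.mul_sum]
    _ ≤ (3 * C) * S := mul_le_mul_of_nonneg_left (hS s) (by positivity)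

theorem mem_PP {F : MvPolynomial ι ℤ} {A₀ : ℕ} {L z : ℝ} {p : ℕ} : p ∈ PP F A₀ L z ↔
    p.Prime ∧ (p:ℝ) ≤ z ∧ L ^ A₀ < (p:ℝ) ∧
      3 / 4 * (p:ℝ) ^ (Fintype.card ι - 1) ≤ zc F p := by
  unfold PP
  rw [mem_filter, mem_PR]
  tauto

/-- the sums of the weights -/
theorem weight_sums (hLW : S_LW) (hMER : S_MER) (hSZ : S_SZ) (F : MvPolynomial ι ℤ)
    (hF : Irreducible F) (hF0 : 0 < F.totalDegree) (C₀ : ℝ) (hC₀ : 1 ≤ C₀) (A₀ : ℕ)
    (hA₀ : 3 ≤ A₀) : ∃ A C L₁ : ℝ, 0 ≤ A ∧ 0 ≤ C ∧ ∀ L : ℝ, L₁ ≤ L → ∀ z : ℝ, L ^ 2 ≤ z →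
    Real.log z ≤ L → ∀ u : ℕ, (u:ℝ) ≤ L →
    (∀ p ∈ PP F A₀ L z, mp F C₀ u p + u * Ep C₀ (Fintype.card ι) p ≤ zc F p ∧
      1 / (2 * (p:ℝ)) ≤ (mp F C₀ u p : ℝ) / (p:ℝ) ^ Fintype.card ι ∧
      (mp F C₀ u p : ℝ) / (p:ℝ) ^ Fintype.card ι ≤ 2 / L ^ 2) ∧
    (∀ w, L ^ 2 ≤ w → w ≤ z → ∑ p ∈ (PP F A₀ L z).filter (fun p : ℕ => (p:ℝ) ≤ w),
      (mp F C₀ u p : ℝ) / (p:ℝ) ^ Fintype.card ι * Real.log p ≤ A * Real.log w) ∧
    (∀ w, L ^ 2 ≤ w → w ≤ z → Real.log (Real.log w / Real.log (L ^ 2)) - C ≤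
      ∑ p ∈ (PP F A₀ L z).filter (fun p : ℕ => (p:ℝ) ≤ w),
        (mp F C₀ u p : ℝ) / (p:ℝ) ^ Fintype.card ι) ∧
    ∑ p ∈ PP F A₀ L z, (mp F C₀ u p : ℝ) / (p:ℝ) ^ Fintype.card ι ≤ Real.log L + C := by
  obtain ⟨C₁, hC₁0, hC₁⟩ := hMER ι F hF hF0
  obtain ⟨C₂, hC₂0, hC₂⟩ := bad_sum hLW F hF hF0
  obtain ⟨S, hS0, hS⟩ := sum_three_half
  obtain ⟨A, hA0, hA⟩ := sum_log_le
  have hAl : (0:ℝ) ≤ Real.log A₀ := Real.log_nonneg (by exact_mod_cast (by omega : 1 ≤ A₀))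
  refine ⟨F.totalDegree * A, 2 * C₁ + C₂ + C₀ * S + Real.log A₀,
    max (max (4 * C₀) F.totalDegree) 3, by positivity, by positivity, ?_⟩
  intro L hL z hz1 hz2 u hu
  have hL1 : 4 * C₀ ≤ L := ((le_max_left _ _).trans (le_max_left _ _)).trans hL
  have hL2 : (F.totalDegree : ℝ) ≤ L := ((le_max_right _ _).trans (le_max_left _ _)).trans hL
  have hL3 : 3 ≤ L := (le_max_right _ _).trans hL
  have hL4 : 4 ≤ L := by linarith
  have hL0 : 0 < L := by linarith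
  have hLsq : 3 ≤ L ^ 2 := by nlinarith
  have hpw : L ^ 3 ≤ L ^ A₀ := pow_le_pow_right₀ (by linarith) hA₀
  have hpw2 : L ^ 2 ≤ L ^ A₀ := pow_le_pow_right₀ (by linarith) (by omega)
  have hfacts : ∀ p ∈ PP F A₀ L z, mp F C₀ u p + u * Ep C₀ (Fintype.card ι) p ≤ zc F p ∧
      1 / (2 * (p:ℝ)) ≤ (mp F C₀ u p : ℝ) / (p:ℝ) ^ Fintype.card ι ∧
      (mp F C₀ u p : ℝ) / (p:ℝ) ^ Fintype.card ι ≤ F.totalDegree / p ∧
      (mp F C₀ u p : ℝ) / (p:ℝ) ^ Fintype.card ι ≤ 2 / L ^ 2 ∧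
      (zc F p : ℝ) / (p:ℝ) ^ Fintype.card ι - C₀ * (1 / ((p:ℝ) * Real.sqrt p)) ≤
        (mp F C₀ u p : ℝ) / (p:ℝ) ^ Fintype.card ι ∧
      (mp F C₀ u p : ℝ) / (p:ℝ) ^ Fintype.card ι ≤ (zc F p : ℝ) / (p:ℝ) ^ Fintype.card ι := by
    intro p hp
    rw [mem_PP] at hp
    exact mp_facts hSZ F hF hF0 C₀ hC₀ L hL1 hL2 u hu p hp.1 (lt_of_le_of_lt hpw hp.2.2.1)
      hp.2.2.2
  refine ⟨fun p hp => ⟨(hfacts p hp).1, (hfacts p hp).2.1, (hfacts p hp).2.2.2.1⟩, ?_, ?_, ?_⟩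
  · intro w hw1 hw2
    have hw3 : 3 ≤ w := hLsq.trans hw1
    have h1 : ∀ p ∈ (PP F A₀ L z).filter (fun p : ℕ => (p:ℝ) ≤ w),
        (mp F C₀ u p : ℝ) / (p:ℝ) ^ Fintype.card ι * Real.log p ≤
          F.totalDegree * (Real.log p / p) := by
      intro p hp
      rw [mem_filter] at hp
      have hp1 : 0 ≤ Real.log p := by
        have := (mem_PP.1 hp.1).1.pos
        exact Real.log_nonneg (by exact_mod_cast this)
      calc (mp F C₀ u p : ℝ) / (p:ℝ) ^ Fintype.card ι * Real.log p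
          ≤ (F.totalDegree / p) * Real.log p :=
            mul_le_mul_of_nonneg_right (hfacts p hp.1).2.2.1 hp1
        _ = F.totalDegree * (Real.log p / p) := by ring
    refine (Finset.sum_le_sum h1).trans ?_
    rw [← Finset.mul_sum, mul_assoc]
    apply mul_le_mul_of_nonneg_left _ (Nat.cast_nonneg _)
    refine le_trans ?_ (hA w hw3)
    apply Finset.sum_le_sum_of_subset_of_nonneg
    · intro p hp
      rw [mem_filter, mem_PP] at hp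
      rw [mem_PR]
      exact ⟨hp.1.1, hp.2⟩
    · intro p hp _
      have := (mem_PR.1 hp).1.pos
      have h2 : 0 ≤ Real.log p := Real.log_nonneg (by exact_mod_cast this)
      positivity
  · intro w hw1 hw2
    have hw3 : 3 ≤ w := hLsq.trans hw1
    set f : ℕ → ℝ := fun p => (zc F p : ℝ) / (p:ℝ) ^ Fintype.card ι with hf
    have hf0 : ∀ p, 0 ≤ f p := fun p => by positivity
    have h1 := (abs_le.1 (hC₁ w hw3)).1
    have h2 := (abs_le.1 (hC₁ (L ^ A₀) (hLsq.trans hpw2))).2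
    -- the three parts
    have h3 : ∑ p ∈ PR w, f p ≤ ∑ p ∈ PR (L ^ A₀), f p +
        ∑ p ∈ (PP F A₀ L z).filter (fun p : ℕ => (p:ℝ) ≤ w), f p +
        ∑ p ∈ (PR w).filter (fun p => (zc F p : ℝ) <
          3 / 4 * (p:ℝ) ^ (Fintype.card ι - 1)), f p := by
      have hsub : PR w ⊆ PR (L ^ A₀) ∪ (PP F A₀ L z).filter (fun p : ℕ => (p:ℝ) ≤ w) ∪
          (PR w).filter (fun p => (zc F p : ℝ) < 3 / 4 * (p:ℝ) ^ (Fintype.card ι - 1)) := by
        intro p hp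
        rw [mem_union, mem_union, mem_filter, mem_filter, mem_PP, mem_PR]
        have hp' := mem_PR.1 hp
        rcases le_or_gt (p:ℝ) (L ^ A₀) with h4 | h4
        · exact Or.inl (Or.inl ⟨hp'.1, h4⟩)
        · rcases lt_or_ge (zc F p : ℝ) (3 / 4 * (p:ℝ) ^ (Fintype.card ι - 1)) with h5 | h5
          · exact Or.inr ⟨hp, h5⟩
          · exact Or.inl (Or.inr ⟨⟨hp'.1, hp'.2.trans hw2, h4, h5⟩, hp'.2⟩)
      refine (Finset.sum_le_sum_of_subset_of_nonneg hsub (fun p _ _ => hf0 p)).trans ?_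
      have hu1 : ∀ s t : Finset ℕ, ∑ p ∈ s ∪ t, f p ≤ ∑ p ∈ s, f p + ∑ p ∈ t, f p := by
        intro s t
        rw [← Finset.sum_union_inter]
        have : 0 ≤ ∑ p ∈ s ∩ t, f p := Finset.sum_nonneg (fun p _ => hf0 p)
        linarith
      have := hu1 (PR (L ^ A₀) ∪ (PP F A₀ L z).filter (fun p : ℕ => (p:ℝ) ≤ w))
        ((PR w).filter (fun p => (zc F p : ℝ) < 3 / 4 * (p:ℝ) ^ (Fintype.card ι - 1)))
      have := hu1 (PR (L ^ A₀)) ((PP F A₀ L z).filter (fun p : ℕ => (p:ℝ) ≤ w))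
      linarith
    have h4 : ∑ p ∈ (PR w).filter (fun p => (zc F p : ℝ) <
          3 / 4 * (p:ℝ) ^ (Fintype.card ι - 1)), f p ≤ C₂ := by
      apply hC₂
      intro p hp
      rw [mem_filter, mem_PR] at hp
      exact ⟨hp.1.1, hp.2⟩
    have h5 : ∑ p ∈ (PP F A₀ L z).filter (fun p : ℕ => (p:ℝ) ≤ w), f p ≤
        ∑ p ∈ (PP F A₀ L z).filter (fun p : ℕ => (p:ℝ) ≤ w),
          (mp F C₀ u p : ℝ) / (p:ℝ) ^ Fintype.card ι + C₀ * S := by
      have h6 : ∀ p ∈ (PP F A₀ L z).filter (fun p : ℕ => (p:ℝ) ≤ w), f p ≤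
          (mp F C₀ u p : ℝ) / (p:ℝ) ^ Fintype.card ι + C₀ * (1 / ((p:ℝ) * Real.sqrt p)) := by
        intro p hp
        have := (hfacts p (mem_filter.1 hp).1).2.2.2.2.1
        rw [hf]
        dsimp only
        linarith
      refine (Finset.sum_le_sum h6).trans ?_
      rw [Finset.sum_add_distrib, ← Finset.mul_sum]
      have := mul_le_mul_of_nonneg_left (hS ((PP F A₀ L z).filter (fun p : ℕ => (p:ℝ) ≤ w)))
        (by linarith : (0:ℝ) ≤ C₀)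
      linarith
    have hlw : 0 < Real.log w := Real.log_pos (by linarith)
    have hlL : 0 < Real.log L := Real.log_pos (by linarith)
    have hlL2 : 0 < Real.log (L ^ 2) := Real.log_pos (by linarith)
    have h7 : Real.log (Real.log (L ^ A₀)) ≤ Real.log (Real.log (L ^ 2)) + Real.log A₀ := by
      rw [← Real.log_mul hlL2.ne' (by positivity)]
      apply Real.log_le_log
      · apply Real.log_pos; linarith
      · rw [Real.log_pow, Real.log_pow]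
        push_cast
        have : (0:ℝ) ≤ A₀ * Real.log L := by positivity
        nlinarith
    rw [Real.log_div hlw.ne' hlL2.ne']
    linarith
  · have h1 : ∑ p ∈ PP F A₀ L z, (mp F C₀ u p : ℝ) / (p:ℝ) ^ Fintype.card ι ≤
        ∑ p ∈ PR z, (zc F p : ℝ) / (p:ℝ) ^ Fintype.card ι := by
      refine (Finset.sum_le_sum (fun p hp => (hfacts p hp).2.2.2.2.2)).trans ?_
      apply Finset.sum_le_sum_of_subset_of_nonneg
      · unfold PP
        exact Finset.filter_subset _ _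
      · intro p _ _
        positivity
    have h2 := (abs_le.1 (hC₁ z (hLsq.trans hz1))).2
    have h3 : Real.log (Real.log z) ≤ Real.log L :=
      Real.log_le_log (Real.log_pos (by linarith)) hz2
    have h4 : 0 ≤ C₀ * S := by positivity
    linarith

end Pool.Agent.H525.MV
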